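import Pool.Agent.Run7.h870.LK.Dat

/-!
# Systems of polynomials: almost primes in almost all intervals of the optimal length
-/

set_option autoImplicit false
set_option linter.all false

namespace Run7.h870.LK

open Finset Filter Topology Polynomial
open Pool.Agent.Y882
open Pool.Agent.W23.DC
open Pool.Agent.Y882.KW Pool.Agent.Y882.PX
open Run7.h870.LG
open Run7.h870.LI (Per rr per_mod evlog)
open Pool.Agent.W123.RU.Poly (Sys)
open scoped Classical

variable {ι : Type} [Fintype ι]

/-- all values at `m` are larger than `1`, have no prime factor below `X ^ ζ`, and at most `deg / ζ`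
prime factors -/
def GoodK (f : ι → ℤ[X]) (ζ : ℝ) (X m : ℕ) : Prop :=
  ∀ i, 1 < (f i).eval (m : ℤ) ∧
    ((((f i).eval (m : ℤ)).natAbs.primeFactorsList.length : ℕ) : ℝ) ≤ (f i).natDegree / ζ ∧
    ∀ p : ℕ, p.Prime → (p : ℤ) ∣ (f i).eval (m : ℤ) → (X : ℝ) ^ ζ ≤ p

theorem list_pow {y : ℝ} (hy : 0 ≤ y) : ∀ l : List ℕ, (∀ p ∈ l, y ≤ (p : ℝ)) →
    y ^ l.length ≤ ((l.prod : ℕ) : ℝ) := by
  intro l
  induction l with
  | nil => intro _; simp
  | cons p l ih =>
    intro h
    rw [List.length_cons, List.prod_cons, pow_succ, mul_comm, Nat.cast_mul]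
    exact mul_le_mul (h p (by simp)) (ih fun q hq => h q (by simp [hq])) (pow_nonneg hy _)
      (Nat.cast_nonneg _)

theorem pick (k : ℕ) (hk : 1 ≤ k) {ζ : ℝ} (hζ : 0 < ζ)
    (hz : 2 * ζ * (1 + 2 / (1 - Real.exp (-(1 / (k : ℝ)))) ^ 2) < 1) :
    ∃ ζ' τ x : ℝ, ζ < ζ' ∧ 2 * τ < 1 ∧ 0 < x ∧ k * x < 1 ∧
      ζ' * (1 + 2 / (1 - Real.exp (-x)) ^ 2) ≤ τ := by
  have hkr : (1 : ℝ) ≤ k := by exact_mod_cast hk
  have hk0 : 0 < 1 / (k : ℝ) := by positivity
  have hne : (1 - Real.exp (-(1 / (k : ℝ)))) ^ 2 ≠ 0 := by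
    apply pow_ne_zero
    have : Real.exp (-(1 / (k : ℝ))) < 1 := by rw [Real.exp_lt_one_iff]; linarith
    linarith
  have hcont : ContinuousAt (fun x : ℝ => 2 * ζ * (1 + 2 / (1 - Real.exp (-x)) ^ 2)) (1 / (k : ℝ)) := by
    apply ContinuousAt.mul continuousAt_const
    apply ContinuousAt.add continuousAt_const
    apply ContinuousAt.div continuousAt_const
    · exact (Continuous.pow (continuous_const.sub (Real.continuous_exp.comp continuous_neg)) 2).continuousAt
    · exact hne
  have ev1 := hcont.tendsto.eventually (gt_mem_nhds hz)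
  have ev2 : ∀ᶠ x : ℝ in 𝓝[<] (1 / (k : ℝ)), 0 < x :=
    (lt_mem_nhds hk0).filter_mono nhdsWithin_le_nhds
  obtain ⟨x, ⟨h1, h2⟩, h3⟩ := (((ev1.filter_mono nhdsWithin_le_nhds).and
    (self_mem_nhdsWithin (a := 1 / (k : ℝ)) (s := Set.Iio (1 / (k : ℝ))))).and ev2).exists
  obtain ⟨B, hB⟩ : ∃ B : ℝ, B = 1 + 2 / (1 - Real.exp (-x)) ^ 2 := ⟨_, rfl⟩
  have hB0 : 0 < B := by rw [hB]; positivity
  have h1' : 2 * ζ * B < 1 := by rw [hB]; exact h1
  have h4 : ζ < 1 / (2 * B) := by rw [lt_div_iff₀ (by positivity)]; linarith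
  refine ⟨(ζ + 1 / (2 * B)) / 2, (ζ + 1 / (2 * B)) / 2 * B, x, by linarith, ?_, h3, ?_, ?_⟩
  · have h5 : (ζ + 1 / (2 * B)) / 2 < 1 / (2 * B) := by linarith
    have h6 := mul_lt_mul_of_pos_right h5 hB0
    have h7 : 1 / (2 * B) * B = 1 / 2 := by field_simp
    linarith
  · have h5 : x < 1 / (k : ℝ) := h2
    rw [lt_div_iff₀ (by positivity)] at h5
    linarith
  · rw [hB]

set_option maxHeartbeats 4000000 in
theorem final (f : ι → ℤ[X]) (hf : Sys f) (hne : 1 ≤ Fintype.card ι) {ζ : ℝ} (hζ : 0 < ζ)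
    (hz : 2 * ζ * (1 + 2 / (1 - Real.exp (-(1 / (Fintype.card ι : ℝ)))) ^ 2) < 1) :
    ∃ δ : ℝ, 0 < δ ∧ ∀ ε : ℝ, 0 < ε → ∃ K : ℝ, 0 < K ∧ ∃ X0 : ℕ, ∀ X : ℕ, X0 ≤ X → ∀ H : ℕ,
      K * Real.log X ^ (Fintype.card ι) ≤ H → H ≤ X →
      (((Icc 1 X).filter (fun n => (((Ioc n (n + H)).filter (GoodK f ζ X)).card : ℝ) <
        δ * H / Real.log X ^ (Fintype.card ι))).card : ℝ) ≤ ε * X := by
  obtain ⟨k, hk⟩ : ∃ k, k = Fintype.card ι := ⟨_, rfl⟩
  rw [← hk] at hne hz ⊢
  obtain ⟨ζ', τ, x, hζζ, hτ, hx, hkx, hlev⟩ := pick k hne hζ hz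
  have hζ'0 : 0 < ζ' := by linarith
  obtain ⟨q, a, hq2, haq, hg, hsh⟩ := gq_sys f hf (by rw [← hk]; exact hne)
  have hq0 : 0 < q := by omega
  have hqr : (2 : ℝ) ≤ q := by exact_mod_cast hq2
  obtain ⟨c, D, cl, R, hD⟩ := datK (fun i => gq q a (f i)) hg (by rw [← hk]; exact hne) hsh
  rw [← hk] at hD
  obtain ⟨δ1, hδ1, HM⟩ := manyK hD τ ζ' x hζ'0 hτ hx hkx hlev
  refine ⟨δ1 / (2 * q), by positivity, fun ε hε => ?_⟩
  obtain ⟨K1, ε₁, hK1, hε₁, X1, HM1⟩ := HM (ε / (2 * q)) (by positivity)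
  have hζ'1 : ζ' ≤ 1 := by
    have h1 : ζ' ≤ ζ' * (1 + 2 / (1 - Real.exp (-x)) ^ 2) := by
      apply le_mul_of_one_le_right hζ'0.le
      have : 0 ≤ 2 / (1 - Real.exp (-x)) ^ 2 := by positivity
      linarith
    linarith
  -- positivity of the values
  have hpos : ∃ m0 : ℕ, ∀ m : ℕ, m0 ≤ m → ∀ i, 1 < (f i).eval (m : ℤ) := by
    have h1 : ∀ i, ∀ᶠ m : ℕ in atTop, 1 < (f i).eval (m : ℤ) := by
      intro i
      have h2 : Tendsto (fun y : ℝ => ((f i).map (Int.castRingHom ℝ)).eval y) atTop atTop := by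
        apply Polynomial.tendsto_atTop_of_leadingCoeff_nonneg
        · rw [Polynomial.degree_map_eq_of_injective (RingHom.injective_int _)]
          exact natDegree_pos_iff_degree_pos.1 (hf.deg i)
        · rw [leadingCoeff_map_of_injective (RingHom.injective_int _)]
          have := hf.lead i
          have h3 : (0 : ℝ) < ((f i).leadingCoeff : ℝ) := by exact_mod_cast this
          exact h3.le
      have h3 := (h2.comp tendsto_natCast_atTop_atTop).eventually_gt_atTop (1 : ℝ)
      filter_upwards [h3] with m hm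
      have h4 : ((f i).map (Int.castRingHom ℝ)).eval (m : ℝ) = (((f i).eval (m : ℤ) : ℤ) : ℝ) := by
        rw [eval_map]
        have := Polynomial.eval₂_at_apply (p := f i) (Int.castRingHom ℝ) (m : ℤ)
        simpa using this
      have h5 : (1 : ℝ) < ((f i).map (Int.castRingHom ℝ)).eval (m : ℝ) := hm
      rw [h4] at h5
      exact_mod_cast h5
    obtain ⟨m0, h0⟩ := eventually_atTop.1 (eventually_all.2 h1)
    exact ⟨m0, fun m hm i => h0 m hm i⟩
  obtain ⟨m0, hm0⟩ := hpos
  -- sizes of the values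
  choose Kf hKf1 hKf using fun i => Pool.Agent.H474R2.GE.eval_bound (f i)
  have ev1 : ∀ᶠ X : ℕ in atTop, ∀ i, Kf i * (2 : ℝ) ^ (f i).natDegree * Real.log X ^ 0 ≤
      (X : ℝ) ^ ((f i).natDegree * (ζ' / ζ - 1)) := by
    rw [eventually_all]
    intro i
    apply evlog
    have h1 : (1 : ℝ) ≤ (f i).natDegree := by exact_mod_cast hf.deg i
    have h2 : 1 < ζ' / ζ := by rw [lt_div_iff₀ hζ]; linarith
    have : 0 < ζ' / ζ - 1 := by linarith
    positivity
  have ev2 : ∀ᶠ X : ℕ in atTop, (4 * q : ℝ) / (2 * q * K1) ≤ Real.log X :=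
    (Real.tendsto_log_atTop.comp tendsto_natCast_atTop_atTop).eventually_ge_atTop _
  have ev3 : ∀ᶠ X : ℕ in atTop, (2 * m0 / ε : ℝ) ≤ X := tendsto_natCast_atTop_atTop.eventually_ge_atTop _
  obtain ⟨X2, hX2⟩ := eventually_atTop.1 (ev1.and (ev2.and (ev3.and (eventually_ge_atTop 3))))
  refine ⟨2 * q * K1, by positivity, X1 + X2, fun X hX H hH1 hHX => ?_⟩
  obtain ⟨e1, e2, e3, e4⟩ := hX2 X (by omega)
  have hXr : (3 : ℝ) ≤ X := by exact_mod_cast e4
  have hX0 : (0 : ℝ) < X := by linarith
  have hX1r : (1 : ℝ) ≤ X := by linarith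
  have hlX1 : 1 ≤ Real.log X := by
    rw [Real.le_log_iff_exp_le hX0]
    linarith [Real.exp_one_lt_d9]
  have hlX : 0 < Real.log X := by linarith
  have hlXk : 0 < Real.log X ^ k := pow_pos hlX k
  have hlXk1 : Real.log X ≤ Real.log X ^ k := le_self_pow₀ hlX1 (by omega)
  have hH4 : (4 * q : ℝ) ≤ H := by
    rw [div_le_iff₀ (by positivity)] at e2
    refine le_trans ?_ hH1
    have := mul_le_mul_of_nonneg_left hlXk1 (show 0 ≤ 2 * q * K1 by positivity)
    linarith
  obtain ⟨H', hH'⟩ : ∃ H' : ℕ, H' + 1 = H / q := by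
    have h1 : 1 ≤ H / q := by
      rw [Nat.le_div_iff_mul_le hq0]
      have : 4 * q ≤ H := by exact_mod_cast hH4
      omega
    exact ⟨H / q - 1, by omega⟩
  have hqH : q * (H' + 1) ≤ H := by rw [hH']; exact Nat.mul_div_le H q
  have hH'lo : (H : ℝ) / (2 * q) ≤ H' := by
    have h1 : H < q * (H / q) + q := Nat.lt_mul_div_succ H hq0 |>.trans_le (by rw [Nat.mul_succ])
    rw [← hH'] at h1
    have h2 : (H : ℝ) < q * (H' + 1) + q := by exact_mod_cast h1
    rw [div_le_iff₀ (by positivity)]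
    nlinarith
  have hK1H : K1 * Real.log X ^ k ≤ H' := by
    refine le_trans ?_ hH'lo
    rw [le_div_iff₀ (by positivity)]
    linarith
  have hH'X : H' ≤ X := by
    have h1 : H / q ≤ H := Nat.div_le_self _ _
    omega
  have hmain := HM1 X (by omega) 1 H' 1 le_rfl (by omega) le_rfl (by omega) hK1H hH'X
  have hempty : (PZ X ε₁).filter (fun p => p ∣ 1) = ∅ := by
    rw [filter_eq_empty_iff]
    intro p hp h1
    unfold PZ at hp
    rw [mem_filter] at hp
    have := hp.2.1.one_lt
    have := Nat.le_of_dvd one_pos h1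
    omega
  have hV1 : V1 (Qf (Fv (Pf fun i => gq q a (f i)))) ((PZ X ε₁).filter fun p => p ∣ 1) = 1 := by
    rw [hempty]
    unfold V1
    rw [prod_empty]
  rw [hV1, mul_one, one_mul] at hmain
  obtain ⟨E, hE⟩ : ∃ E, E = (Gd (Qf (Fv (Pf fun i => gq q a (f i)))) (PZ X ε₁) 1 1 X).filter (fun n =>
    ((zset (Fv (Pf fun i => gq q a (f i))) X ζ' 1 H' n).card : ℝ) < δ1 * H' / Real.log X ^ k) := ⟨_, rfl⟩
  rw [← hE] at hmain
  -- the exceptional `n`
  have hsub : (Icc 1 X).filter (fun n => (((Ioc n (n + H)).filter (GoodK f ζ X)).card : ℝ) <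
      δ1 / (2 * q) * H / Real.log X ^ k) ⊆ range m0 ∪ (Icc 1 X).filter (fun n => n / q + 1 ∈ E) := by
    intro n hn
    rw [mem_filter, mem_Icc] at hn
    obtain ⟨⟨hn1, hn2⟩, hn3⟩ := hn
    rw [mem_union, mem_range, mem_filter, mem_Icc]
    by_contra hcon
    push Not at hcon
    obtain ⟨hc1, hc2⟩ := hcon
    have hnE := hc2 ⟨hn1, hn2⟩
    have hn' : n / q + 1 ≤ X := by
      have h1 : n / q ≤ n / 2 := Nat.div_le_div_left hq2 (by norm_num)
      omega
    have hz1 : δ1 * H' / Real.log X ^ k ≤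
        ((zset (Fv (Pf fun i => gq q a (f i))) X ζ' 1 H' (n / q + 1)).card : ℝ) := by
      by_contra h
      apply hnE
      rw [hE, mem_filter]
      refine ⟨?_, not_le.1 h⟩
      unfold Gd
      rw [mem_filter, mem_Ico, hempty]
      exact ⟨⟨Nat.le_add_left _ _, lt_of_le_of_lt hn' (by omega)⟩, fun p hp => absurd hp (notMem_empty p)⟩
    have hcard : (zset (Fv (Pf fun i => gq q a (f i))) X ζ' 1 H' (n / q + 1)).card ≤
        ((Ioc n (n + H)).filter (GoodK f ζ X)).card := by
      apply card_le_card_of_injOn (fun j => q * (n / q + 1 + j) + a)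
      · intro j hj
        rw [mem_coe] at hj
        unfold zset at hj
        rw [mem_filter, mem_range, mul_one] at hj
        obtain ⟨hj1, hj2⟩ := hj
        show q * (n / q + 1 + j) + a ∈ _
        obtain ⟨m, hm⟩ : ∃ m, m = q * (n / q + 1 + j) + a := ⟨_, rfl⟩
        rw [← hm, mem_coe, mem_filter, mem_Ioc]
        have hmlo : n < m := by
          have h1 : n < q * (n / q + 1) := by
            exact Nat.lt_mul_div_succ n hq0
          have h2 : q * (n / q + 1) ≤ q * (n / q + 1 + j) := Nat.mul_le_mul_left _ (by omega)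
          omega
        have hmhi : m ≤ n + H := by
          have h1 : q * (n / q) ≤ n := Nat.mul_div_le n q
          have h2 : q * (n / q + 1 + j) + a ≤ q * (n / q) + q * (H' + 1) := by
            have h3 : q * (n / q + 1 + j) = q * (n / q) + q * (1 + j) := by ring
            have h4 : q * (1 + j) ≤ q * H' := Nat.mul_le_mul_left _ (by omega)
            have h5 : q * (H' + 1) = q * H' + q := by ring
            omega
          omega
        refine ⟨⟨hmlo, hmhi⟩, fun i => ?_⟩
        have hm1 : 1 ≤ m := by omega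
        have hval : (f i).eval (m : ℤ) = (gq q a (f i)).eval ((n / q + 1 + j : ℕ) : ℤ) := by
          rw [gq_eval, hm]
          push_cast
          rfl
        have h1 := hm0 m (by omega) i
        have hprime : ∀ p : ℕ, p.Prime → (p : ℤ) ∣ (f i).eval (m : ℤ) → (X : ℝ) ^ ζ' ≤ p := by
          intro p hp hpd
          by_contra hlt
          push Not at hlt
          have h2 : (p : ℝ) ≤ X := by
            refine hlt.le.trans ?_
            conv_rhs => rw [← Real.rpow_one (X : ℝ)]
            exact Real.rpow_le_rpow_of_exponent_le hX1r hζ'1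
          have h3 : p ∈ PZ X ζ' := by
            unfold PZ
            rw [mem_filter, mem_Icc]
            exact ⟨⟨hp.one_le, by exact_mod_cast h2⟩, hp, (tt_lt X p ζ' (by omega) hp.pos).2 hlt⟩
          apply hj2 p h3
          unfold Fv Pf
          rw [eval_prod]
          rw [hval] at hpd
          exact hpd.trans (Finset.dvd_prod_of_mem (fun i => (gq q a (f i)).eval ((n / q + 1 + j : ℕ) : ℤ)) (mem_univ i))
        refine ⟨h1, ?_, fun p hp hpd => ?_⟩
        · -- the number of prime factors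
          obtain ⟨N, hN⟩ : ∃ N, N = ((f i).eval (m : ℤ)).natAbs := ⟨_, rfl⟩
          rw [← hN]
          have hN0 : N ≠ 0 := by
            rw [hN]
            intro h0
            rw [Int.natAbs_eq_zero] at h0
            omega
          have h2 := list_pow (y := (X : ℝ) ^ ζ') (by positivity) N.primeFactorsList (fun p hp => by
            have hp' := Nat.prime_of_mem_primeFactorsList hp
            apply hprime p hp'
            apply Int.natCast_dvd.2
            rw [← hN]
            exact Nat.dvd_of_mem_primeFactorsList hp)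
          rw [Nat.prod_primeFactorsList hN0] at h2
          have h3 : (N : ℝ) ≤ (X : ℝ) ^ ((f i).natDegree * (ζ' / ζ)) := by
            have h4 := hKf i (m : ℤ) (m : ℝ) (by exact_mod_cast hm1) (by
              rw [Int.cast_natCast, abs_of_nonneg (Nat.cast_nonneg _)])
            have h5 : (N : ℝ) = |(((f i).eval (m : ℤ) : ℤ) : ℝ)| := by
              rw [hN, Nat.cast_natAbs, Int.cast_abs]
            rw [h5]
            refine h4.trans ?_
            have h6 : (m : ℝ) ≤ 2 * X := by
              have : m ≤ 2 * X := by omega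
              exact_mod_cast this
            have h7 := e1 i
            rw [pow_zero, mul_one] at h7
            have hKi : 0 ≤ Kf i := by linarith [hKf1 i]
            calc Kf i * (m : ℝ) ^ (f i).natDegree ≤ Kf i * (2 * X) ^ (f i).natDegree := by gcongr
              _ = Kf i * (2 : ℝ) ^ (f i).natDegree * (X : ℝ) ^ (f i).natDegree := by
                  rw [mul_pow]; ring
              _ ≤ (X : ℝ) ^ ((f i).natDegree * (ζ' / ζ - 1)) * (X : ℝ) ^ (f i).natDegree := by gcongr
              _ = (X : ℝ) ^ ((f i).natDegree * (ζ' / ζ)) := by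
                  rw [← Real.rpow_natCast (X : ℝ), ← Real.rpow_add hX0]
                  congr 1
                  ring
          have h4 := h2.trans h3
          rw [← Real.rpow_natCast, ← Real.rpow_mul hX0.le] at h4
          have hX1 : (1 : ℝ) < X := by linarith
          have h5 := (Real.rpow_le_rpow_left_iff hX1).1 h4
          rw [le_div_iff₀ hζ]
          have h6 : (f i).natDegree * (ζ' / ζ) * ζ = (f i).natDegree * ζ' := by field_simp
          have h7 := mul_le_mul_of_nonneg_right h5 hζ.le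
          rw [h6] at h7
          have h8 : ζ' * ((N.primeFactorsList.length : ℕ) : ℝ) * ζ =
              (((N.primeFactorsList.length : ℕ) : ℝ) * ζ) * ζ' := by ring
          rw [h8] at h7
          exact le_of_mul_le_mul_right h7 hζ'0
        · refine le_trans ?_ (hprime p hp hpd)
          exact Real.rpow_le_rpow_of_exponent_le hX1r hζζ.le
      · intro j _ j' _ hjj
        have h1 : q * (n / q + 1 + j) + a = q * (n / q + 1 + j') + a := hjj
        have h2 : q * (n / q + 1 + j) = q * (n / q + 1 + j') := by omega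
        have h3 := Nat.eq_of_mul_eq_mul_left hq0 h2
        omega
    have h1 : (((zset (Fv (Pf fun i => gq q a (f i))) X ζ' 1 H' (n / q + 1)).card : ℕ) : ℝ) ≤
        (((Ioc n (n + H)).filter (GoodK f ζ X)).card : ℝ) := by exact_mod_cast hcard
    have h2 : δ1 / (2 * q) * H / Real.log X ^ k ≤ δ1 * H' / Real.log X ^ k := by
      apply div_le_div_of_nonneg_right _ hlXk.le
      calc δ1 / (2 * q) * H = δ1 * (H / (2 * q)) := by ring
        _ ≤ δ1 * H' := mul_le_mul_of_nonneg_left hH'lo hδ1.le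
    linarith
  have hfib : ((Icc 1 X).filter (fun n => n / q + 1 ∈ E)).card ≤ q * E.card := by
    apply card_le_mul_card_image_of_maps_to (f := fun n => n / q + 1)
    · intro n hn
      exact (mem_filter.1 hn).2
    · intro v _
      have h1 : ((Icc 1 X).filter (fun n => n / q + 1 ∈ E)).filter (fun n => n / q + 1 = v) ⊆
          Ico (q * (v - 1)) (q * (v - 1) + q) := by
        intro n hn
        rw [mem_filter] at hn
        rw [mem_Ico]
        have h2 : n / q = v - 1 := Nat.eq_sub_of_add_eq hn.2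
        have h3 := Nat.div_add_mod n q
        have h4 := Nat.mod_lt n hq0
        rw [h2] at h3
        omega
      refine (card_le_card h1).trans ?_
      rw [Nat.card_Ico]
      omega
  have h1 := (card_le_card hsub).trans (card_union_le _ _)
  rw [card_range] at h1
  have h2 : (((Icc 1 X).filter (fun n => (((Ioc n (n + H)).filter (GoodK f ζ X)).card : ℝ) <
      δ1 / (2 * q) * H / Real.log X ^ k)).card : ℝ) ≤ m0 + q * E.card := by
    exact_mod_cast h1.trans (Nat.add_le_add_left hfib m0)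
  refine h2.trans ?_
  have h3 : (q : ℝ) * E.card ≤ q * (ε / (2 * q) * X) := mul_le_mul_of_nonneg_left hmain (Nat.cast_nonneg _)
  have h4 : (q : ℝ) * (ε / (2 * q) * X) = ε / 2 * X := by field_simp
  rw [div_le_iff₀ hε] at e3
  linarith

end Run7.h870.LK
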