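import Pool.Agent.Run7.h870.LK.Wt
import Pool.Agent.Run7.h870.LG.Avg

/-!
# The singular series on average, for densities of dimension `k`
-/

set_option autoImplicit false
set_option linter.all false

namespace Run7.h870.LK

open Finset Filter
open Run7.h870.LG
open Run7.h870.LI (Per rr per_mul per_mod rr_le crt_range per_shift per_or per_not rr_window rr_shift
  rr_not rr_or fac_nonneg fac_le_one)
open scoped Classical

variable {Q : ℕ → ℕ → Prop} {c : ℕ}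

/-- **The singular series on average.** -/
theorem singK (k0 : ℕ) (hQ : Base Q c) (hc : 1 ≤ c) {cl : ℝ} (hcl : 0 < cl)
    (hlo : ∀ y : ℕ, 3 ≤ y → cl / Real.log y ^ k0 ≤ V1 Q ((Icc 1 y).filter Nat.Prime))
    {η : ℝ} (hη : 0 < η) : ∃ (w H0 : ℕ) (θ : ℝ), 0 < θ ∧ ∀ H : ℕ, H0 ≤ H → ∀ (s : ℕ) (P : Finset ℕ),
    (∀ p ∈ P, p.Prime) → (Icc 1 w).filter Nat.Prime ⊆ P →
    (∀ h ∈ Icc 1 H, ((P.filter fun p => H < p ∧ Cd Q p (h * s)).card : ℝ) ≤ θ * H) → ∀ k ≤ H,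
      ∑ h ∈ Icc 1 k, V2 Q (h * s) P ≤
        V1 Q P ^ 2 / V1 Q (P.filter fun p => p ∣ s) * (k + η * H) := by
  obtain ⟨C, hC, HC⟩ := KK_avg hQ hc
  have hcr : (1 : ℝ) ≤ c := by exact_mod_cast hc
  obtain ⟨η1, hη1⟩ : ∃ η1 : ℝ, η1 = min (η / 3) 1 := ⟨_, rfl⟩
  have hη10 : 0 < η1 := by rw [hη1]; exact lt_min (by positivity) one_pos
  have hη11 : η1 ≤ 1 := by rw [hη1]; exact min_le_right _ _
  have hη13 : η1 ≤ η / 3 := by rw [hη1]; exact min_le_left _ _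
  obtain ⟨θ, hθ⟩ : ∃ θ : ℝ, θ = Real.log (1 + η1) / (2 * c) := ⟨_, rfl⟩
  have hθ0 : 0 < θ := by
    rw [hθ]
    apply div_pos (Real.log_pos (by linarith)) (by positivity)
  have hθe : Real.exp (2 * c * θ) = 1 + η1 := by
    rw [hθ, mul_div_cancel₀ _ (by positivity), Real.exp_log (by linarith)]
  -- the choice of `w`
  have ev1 : ∀ᶠ x : ℝ in atTop, Real.log x ^ (2 * (k0 : ℝ)) * C / cl ^ 2 * x ^ (-(1 / 4 : ℝ)) ≤ η / 6 := by
    have h := (isLittleO_log_rpow_rpow_atTop (2 * (k0 : ℝ)) (show (0 : ℝ) < 1 / 4 by norm_num)).bound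
      (show (0 : ℝ) < η / 6 * cl ^ 2 / C by positivity)
    filter_upwards [h, eventually_ge_atTop 1] with x hx hx1
    rw [Real.norm_of_nonneg (Real.rpow_nonneg (Real.log_nonneg hx1) _),
      Real.norm_of_nonneg (by positivity)] at hx
    have hx0 : (0 : ℝ) < x ^ (1 / 4 : ℝ) := by positivity
    rw [Real.rpow_neg (by linarith), ← div_eq_mul_inv, div_le_iff₀ hx0]
    calc Real.log x ^ (2 * (k0 : ℝ)) * C / cl ^ 2 ≤
          (η / 6 * cl ^ 2 / C * x ^ (1 / 4 : ℝ)) * C / cl ^ 2 := by gcongr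
      _ = _ := by field_simp
  obtain ⟨w0, hw0⟩ := eventually_atTop.1 (tendsto_natCast_atTop_atTop.eventually ev1)
  obtain ⟨w, hw⟩ : ∃ w, w = max w0 (2 * c + 5) := ⟨_, rfl⟩
  have hw5 : 2 * c + 5 ≤ w := hw ▸ le_max_right _ _
  have hww := hw0 w (hw ▸ le_max_left _ _)
  obtain ⟨PW, hPW⟩ : ∃ PW, PW = (Icc 1 w).filter Nat.Prime := ⟨_, rfl⟩
  have hPWp : ∀ p ∈ PW, p.Prime := fun p hp => by rw [hPW, mem_filter] at hp; exact hp.2
  obtain ⟨q, hq⟩ : ∃ q, q = ∏ p ∈ PW, p := ⟨_, rfl⟩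
  have hwr : (5 : ℝ) ≤ w := by exact_mod_cast (by omega : 5 ≤ w)
  have hlw : 0 < Real.log w := Real.log_pos (by linarith)
  have hVlow : cl / Real.log w ^ k0 ≤ V1 Q PW := by rw [hPW]; exact hlo w (by omega)
  have ev3 : ∀ᶠ x : ℝ in atTop, (q : ℝ) ≤ η / 6 * x := by
    filter_upwards [eventually_ge_atTop (6 * q / η)] with x hx
    rw [div_le_iff₀ hη] at hx
    linarith
  obtain ⟨H1, hH1⟩ := eventually_atTop.1 (tendsto_natCast_atTop_atTop.eventually ev3)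
  refine ⟨w, max H1 1, θ, hθ0, ?_⟩
  intro H hH s P hP hwP hB k hk
  have e3 := hH1 H ((le_max_left _ _).trans hH)
  have hHpos : 0 < H := (le_max_right _ _).trans hH
  rw [← hPW] at hwP
  obtain ⟨Pd, hPd⟩ : ∃ Pd, Pd = P.filter fun p => p ∣ s := ⟨_, rfl⟩
  obtain ⟨Pc, hPc⟩ : ∃ Pc, Pc = P.filter fun p => ¬ p ∣ s := ⟨_, rfl⟩
  obtain ⟨Pw, hPw⟩ : ∃ Pw, Pw = PW.filter fun p => ¬ p ∣ s := ⟨_, rfl⟩
  rw [← hPd]
  have hPdp : ∀ p ∈ Pd, p.Prime := fun p hp => by rw [hPd, mem_filter] at hp; exact hP p hp.1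
  have hPcp : ∀ p ∈ Pc, p.Prime := fun p hp => by rw [hPc, mem_filter] at hp; exact hP p hp.1
  have hPwp : ∀ p ∈ Pw, p.Prime := fun p hp => by rw [hPw, mem_filter] at hp; exact hPWp p hp.1
  have hPws : ∀ p ∈ Pw, ¬ p ∣ s := fun p hp => by rw [hPw, mem_filter] at hp; exact hp.2
  have hPwPc : Pw ⊆ Pc := by
    rw [hPw, hPc]
    exact filter_subset_filter _ hwP
  have hsplit : ∀ F : ℕ → ℝ, ∏ p ∈ P, F p = (∏ p ∈ Pd, F p) * ∏ p ∈ Pc, F p := by
    intro F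
    rw [hPd, hPc]
    exact (prod_filter_mul_prod_filter_not P (fun p => p ∣ s) F).symm
  have hVd := V1_pos hQ hPdp
  have hVc := V1_pos hQ hPcp
  have hVw := V1_pos hQ hPwp
  have hVP : V1 Q P = V1 Q Pd * V1 Q Pc := hsplit _
  have hVeq : V1 Q P ^ 2 / V1 Q Pd = V1 Q Pd * V1 Q Pc ^ 2 := by
    rw [hVP]
    field_simp
  have hV2P : ∀ h, V2 Q (h * s) P = V1 Q Pd * V2 Q (h * s) Pc := by
    intro h
    have h1 : V2 Q (h * s) P = V2 Q (h * s) Pd * V2 Q (h * s) Pc := hsplit _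
    rw [h1]
    congr 1
    refine prod_congr rfl fun p hp => ?_
    rw [hPd, mem_filter] at hp
    rw [rr_Q2_dvd hQ.per (hp.2.mul_left h)]
  rw [hVeq, sum_congr rfl fun h _ => hV2P h, ← mul_sum, mul_assoc]
  apply mul_le_mul_of_nonneg_left _ hVd.le
  -- the density of `Pw`
  have hVw2 : V1 Q PW ≤ V1 Q Pw := by
    have hsub : Pw ⊆ PW := by rw [hPw]; exact filter_subset _ _
    have h1 : V1 Q PW = V1 Q (PW \ Pw) * V1 Q Pw := (prod_sdiff hsub).symm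
    rw [h1]
    have h2 : V1 Q (PW \ Pw) ≤ 1 := V1_le_one Q fun p hp => hPWp p (Finset.mem_sdiff.1 hp).1
    nlinarith
  have hVinv : (V1 Q Pw ^ 2)⁻¹ ≤ Real.log w ^ (2 * (k0 : ℝ)) / cl ^ 2 := by
    have e0 : Real.log w ^ (2 * (k0 : ℝ)) = (Real.log w ^ k0) ^ 2 := by
      rw [← pow_mul, ← Real.rpow_natCast]
      congr 1
      push_cast
      ring
    rw [e0, ← div_pow, ← inv_pow]
    apply pow_le_pow_left₀ (by positivity)
    rw [inv_le_comm₀ hVw (by positivity), inv_div]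
    exact hVlow.trans hVw2
  have hqw : ((∏ p ∈ Pw, p : ℕ) : ℝ) ≤ q := by
    rw [hq]
    have hsub : Pw ⊆ PW := by rw [hPw]; exact filter_subset _ _
    have : ∏ p ∈ Pw, p ≤ ∏ p ∈ PW, p :=
      prod_le_prod_of_subset_of_one_le' hsub fun p hp _ => (hPWp p hp).one_le
    exact_mod_cast this
  -- the other primes
  have hbig : ∀ p ∈ Pc \ Pw, p.Prime ∧ w < p ∧ ¬ p ∣ s := by
    intro p hp
    rw [Finset.mem_sdiff] at hp
    have hpp := hPcp p hp.1
    have hps : ¬ p ∣ s := by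
      have := hp.1
      rw [hPc, mem_filter] at this
      exact this.2
    refine ⟨hpp, ?_, hps⟩
    by_contra h
    push Not at h
    apply hp.2
    rw [hPw, hPW, mem_filter, mem_filter, mem_Icc]
    exact ⟨⟨⟨hpp.one_le, h⟩, hpp⟩, hps⟩
  obtain ⟨Pm, hPm⟩ : ∃ Pm, Pm = (Pc \ Pw).filter fun p => p ≤ H := ⟨_, rfl⟩
  obtain ⟨Pl, hPl⟩ : ∃ Pl, Pl = (Pc \ Pw).filter fun p => ¬ p ≤ H := ⟨_, rfl⟩
  have hKK : ∀ h, KK Q c (Pc \ Pw) h = KK Q c Pm h * KK Q c Pl h := by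
    intro h
    unfold KK
    rw [hPm, hPl]
    exact (prod_filter_mul_prod_filter_not (Pc \ Pw) (fun p => p ≤ H) _).symm
  have hKl : ∀ h ∈ Icc 1 H, KK Q c Pl (h * s) ≤ 1 + η1 := by
    intro h hh
    rw [← hθe]
    apply KK_large Q c hHpos
    · intro p hp
      rw [hPl, mem_filter] at hp
      omega
    · refine le_trans ?_ (hB h hh)
      have : (Pl.filter fun p => Cd Q p (h * s)).card ≤
          (P.filter fun p => H < p ∧ Cd Q p (h * s)).card := by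
        apply card_le_card
        intro p hp
        rw [mem_filter, hPl, mem_filter, Finset.mem_sdiff, hPc, mem_filter] at hp
        rw [mem_filter]
        exact ⟨hp.1.1.1.1, by omega, hp.2⟩
      exact_mod_cast this
  have h1 := HC w H s Pm (by omega) (fun p hp => by
    rw [hPm, mem_filter] at hp
    obtain ⟨a1, a2, a3⟩ := hbig p hp.1
    exact ⟨a1, a2, hp.2, a3⟩)
  have h2 : ∑ h ∈ Icc 1 k, V2 Q (h * s) Pw * KK Q c (Pc \ Pw) (h * s) ≤
      (1 + η1) * (((k : ℝ) + q) * V1 Q Pw ^ 2 + C * (H * (w : ℝ) ^ (-(1 / 4 : ℝ)))) := by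
    have h3 : ∀ h ∈ Icc 1 k, V2 Q (h * s) Pw * KK Q c (Pc \ Pw) (h * s) ≤
        (1 + η1) * (V2 Q (h * s) Pw + (KK Q c Pm (h * s) - 1)) := by
      intro h hh
      rw [mem_Icc] at hh
      have h4 := V2_le_one Q (h * s) hPwp
      have h5 := V2_nonneg Q (h * s) hPwp
      have h6 := KK_ge_one Q c Pm (h * s)
      have h7 := hKl h (mem_Icc.2 ⟨hh.1, hh.2.trans hk⟩)
      rw [hKK]
      have h8 : V2 Q (h * s) Pw * KK Q c Pm (h * s) ≤ V2 Q (h * s) Pw + (KK Q c Pm (h * s) - 1) := by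
        nlinarith
      calc V2 Q (h * s) Pw * (KK Q c Pm (h * s) * KK Q c Pl (h * s)) =
          (V2 Q (h * s) Pw * KK Q c Pm (h * s)) * KK Q c Pl (h * s) := by ring
        _ ≤ (V2 Q (h * s) Pw * KK Q c Pm (h * s)) * (1 + η1) :=
            mul_le_mul_of_nonneg_left h7 (by positivity)
        _ ≤ (V2 Q (h * s) Pw + (KK Q c Pm (h * s) - 1)) * (1 + η1) :=
            mul_le_mul_of_nonneg_right h8 (by positivity)
        _ = _ := by ring
    refine (sum_le_sum h3).trans ?_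
    rw [← mul_sum, sum_add_distrib]
    apply mul_le_mul_of_nonneg_left _ (by positivity)
    apply add_le_add
    · refine (V2_sum hQ hPwp hPws k).trans ?_
      apply mul_le_mul_of_nonneg_right _ (sq_nonneg _)
      linarith
    · refine le_trans ?_ h1
      apply sum_le_sum_of_subset_of_nonneg (Icc_subset_Icc_right hk)
      intro h _ _
      linarith [KK_ge_one Q c Pm (h * s)]
  have h3 : ∑ h ∈ Icc 1 k, V2 Q (h * s) Pc ≤ (V1 Q Pc / V1 Q Pw) ^ 2 *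
      ∑ h ∈ Icc 1 k, V2 Q (h * s) Pw * KK Q c (Pc \ Pw) (h * s) := by
    rw [mul_sum]
    exact sum_le_sum fun h _ => V2_le hQ (h * s) hPcp hPwPc fun p hp => by
      have := (hbig p hp).2.1
      omega
  refine h3.trans ?_
  calc (V1 Q Pc / V1 Q Pw) ^ 2 * ∑ h ∈ Icc 1 k, V2 Q (h * s) Pw * KK Q c (Pc \ Pw) (h * s) ≤
      (V1 Q Pc / V1 Q Pw) ^ 2 * ((1 + η1) * (((k : ℝ) + q) * V1 Q Pw ^ 2 +
        C * (H * (w : ℝ) ^ (-(1 / 4 : ℝ))))) := mul_le_mul_of_nonneg_left h2 (sq_nonneg _)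
    _ = V1 Q Pc ^ 2 * ((1 + η1) * (((k : ℝ) + q) + (V1 Q Pw ^ 2)⁻¹ *
        (C * (H * (w : ℝ) ^ (-(1 / 4 : ℝ)))))) := by
        field_simp
    _ ≤ V1 Q Pc ^ 2 * (k + η * H) := by
        apply mul_le_mul_of_nonneg_left _ (sq_nonneg _)
        have h4 : 0 ≤ C * (H * (w : ℝ) ^ (-(1 / 4 : ℝ))) := by positivity
        have h5 := mul_le_mul_of_nonneg_right hVinv h4
        have h6 : Real.log w ^ (2 * (k0 : ℝ)) / cl ^ 2 * (C * (H * (w : ℝ) ^ (-(1 / 4 : ℝ)))) =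
            (Real.log w ^ (2 * (k0 : ℝ)) * C / cl ^ 2 * (w : ℝ) ^ (-(1 / 4 : ℝ))) * H := by ring
        have h7 : (Real.log w ^ (2 * (k0 : ℝ)) * C / cl ^ 2 * (w : ℝ) ^ (-(1 / 4 : ℝ))) * H ≤
            η / 6 * H := mul_le_mul_of_nonneg_right hww (Nat.cast_nonneg _)
        have h8 : ((k : ℝ) + q) + (V1 Q Pw ^ 2)⁻¹ * (C * (H * (w : ℝ) ^ (-(1 / 4 : ℝ)))) ≤
            k + η / 3 * H := by linarith
        have hkr : (k : ℝ) ≤ H := by exact_mod_cast hk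
        have hHr : (0 : ℝ) ≤ H := Nat.cast_nonneg _
        calc (1 + η1) * (((k : ℝ) + q) + (V1 Q Pw ^ 2)⁻¹ *
              (C * (H * (w : ℝ) ^ (-(1 / 4 : ℝ))))) ≤ (1 + η1) * (k + η / 3 * H) :=
              mul_le_mul_of_nonneg_left h8 (by positivity)
          _ = k + η1 * k + (η / 3 * H) + η1 * (η / 3 * H) := by ring
          _ ≤ k + η / 3 * H + η / 3 * H + 1 * (η / 3 * H) := by
              have a1 : η1 * k ≤ η / 3 * H := mul_le_mul hη13 hkr (Nat.cast_nonneg _) (by positivity)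
              have a2 : η1 * (η / 3 * H) ≤ 1 * (η / 3 * H) :=
                mul_le_mul_of_nonneg_right hη11 (by positivity)
              linarith
          _ = k + η * H := by ring



end Run7.h870.LK
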