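import Pool.Agent.Y882.VV

/-!
# Lower-bound weights for sieves of any dimension: products of truncated inclusion-exclusion sums
-/

set_option autoImplicit false
set_option linter.all false

namespace Run7.h870.LK

open Finset
open Pool.Agent.Y882 (VV VV_union VV_empty)
open scoped Classical

/-- truncated inclusion-exclusion -/
noncomputable def cm (m : ℕ) (T : Finset ℕ) : ℝ := if T.card ≤ m then (-1) ^ T.card else 0

/-- the sets with `m` elements -/
noncomputable def ce (m : ℕ) (T : Finset ℕ) : ℝ := if T.card = m then 1 else 0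

theorem cm_abs (m : ℕ) (T : Finset ℕ) : |cm m T| ≤ 1 := by
  unfold cm
  split_ifs
  · rw [abs_pow, abs_neg, abs_one, one_pow]
  · rw [abs_zero]; norm_num

theorem ce_abs (m : ℕ) (T : Finset ℕ) : |ce m T| ≤ 1 := by
  unfold ce
  split_ifs <;> simp

theorem cm_succ (t : ℕ) (T : Finset ℕ) : cm (2 * t + 1) T = cm (2 * t) T - ce (2 * t + 1) T := by
  unfold cm ce
  by_cases h : T.card = 2 * t + 1
  · rw [if_pos (by omega), if_neg (by omega), if_pos h, h, pow_succ, pow_mul]
    norm_num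
  · rw [if_neg h, sub_zero]
    by_cases h2 : T.card ≤ 2 * t
    · rw [if_pos h2, if_pos (by omega)]
    · rw [if_neg h2, if_neg (by omega)]

theorem VV_insert {q : ℕ} {P : Finset ℕ} (hq : q ∉ P) (c : Finset ℕ → ℝ) (h : ℕ → ℝ) :
    VV (insert q P) c h = VV P c h + h q * VV P (fun T => c (insert q T)) h := by
  unfold VV
  rw [sum_powerset_insert hq, mul_sum]
  congr 1
  refine sum_congr rfl fun T hT => ?_
  rw [prod_insert fun h' => hq (mem_powerset.1 hT h')]
  ring

theorem VV_congr' {P : Finset ℕ} {c c' : Finset ℕ → ℝ} (h : ℕ → ℝ) (hc : ∀ T ⊆ P, c T = c' T) :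
    VV P c h = VV P c' h := by
  unfold VV
  exact sum_congr rfl fun T hT => by rw [hc T (mem_powerset.1 hT)]

theorem VV_sub (P : Finset ℕ) (c c' : Finset ℕ → ℝ) (h : ℕ → ℝ) :
    VV P (fun T => c T - c' T) h = VV P c h - VV P c' h := by
  unfold VV
  rw [← sum_sub_distrib]
  exact sum_congr rfl fun T _ => by ring

theorem VV_neg (P : Finset ℕ) (c : Finset ℕ → ℝ) (h : ℕ → ℝ) :
    VV P (fun T => - c T) h = - VV P c h := by
  unfold VV
  rw [← sum_neg_distrib]
  exact sum_congr rfl fun T _ => by ring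

theorem VV_zero (P : Finset ℕ) (h : ℕ → ℝ) : VV P (fun _ => 0) h = 0 := by
  unfold VV
  exact sum_eq_zero fun T _ => by ring

/-- the inequalities of Bonferroni -/
theorem bonf (g : ℕ → ℝ) : ∀ (P : Finset ℕ), (∀ p ∈ P, 0 ≤ g p ∧ g p ≤ 1) → ∀ m : ℕ,
    0 ≤ (-1 : ℝ) ^ m * (VV P (cm m) g - ∏ p ∈ P, (1 - g p)) := by
  intro P
  induction P using Finset.induction_on with
  | empty =>
    intro _ m
    rw [VV_empty, prod_empty]
    unfold cm
    rw [card_empty, if_pos (Nat.zero_le _)]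
    norm_num
  | insert q P hq ih =>
    intro hg m
    have hP : ∀ p ∈ P, 0 ≤ g p ∧ g p ≤ 1 := fun p hp => hg p (mem_insert_of_mem hp)
    have hgq := hg q (mem_insert_self _ _)
    have hV0 : 0 ≤ ∏ p ∈ P, (1 - g p) := prod_nonneg fun p hp => by linarith [(hP p hp).2]
    rw [VV_insert hq, prod_insert hq]
    rcases Nat.eq_zero_or_pos m with hm | hm
    · have h1 := ih hP m
      have e : VV P (fun T => cm m (insert q T)) g = 0 := by
        rw [← VV_zero P g]
        refine VV_congr' g fun T hT => ?_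
        unfold cm
        rw [card_insert_of_notMem fun h' => hq (hT h'), if_neg (by omega)]
      rw [e, mul_zero, add_zero, hm]
      rw [hm, pow_zero, one_mul] at h1
      rw [pow_zero, one_mul]
      nlinarith [hgq.1]
    · obtain ⟨n, rfl⟩ : ∃ n, m = n + 1 := ⟨m - 1, by omega⟩
      have h1 := ih hP (n + 1)
      have h2 := ih hP n
      have e : VV P (fun T => cm (n + 1) (insert q T)) g = - VV P (cm n) g := by
        rw [← VV_neg]
        refine VV_congr' g fun T hT => ?_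
        unfold cm
        rw [card_insert_of_notMem fun h' => hq (hT h')]
        by_cases h3 : T.card ≤ n
        · rw [if_pos (by omega), if_pos h3, pow_succ]; ring
        · rw [if_neg (by omega), if_neg h3, neg_zero]
      rw [e]
      have h3 : (-1 : ℝ) ^ (n + 1) * (VV P (cm (n + 1)) g + g q * -VV P (cm n) g -
          (1 - g q) * ∏ p ∈ P, (1 - g p)) =
          (-1 : ℝ) ^ (n + 1) * (VV P (cm (n + 1)) g - ∏ p ∈ P, (1 - g p)) +
          g q * ((-1 : ℝ) ^ n * (VV P (cm n) g - ∏ p ∈ P, (1 - g p))) := by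
        rw [pow_succ]; ring
      rw [h3]
      exact add_nonneg h1 (mul_nonneg hgq.1 h2)

theorem cm_even {g : ℕ → ℝ} {P : Finset ℕ} (hg : ∀ p ∈ P, 0 ≤ g p ∧ g p ≤ 1) (t : ℕ) :
    ∏ p ∈ P, (1 - g p) ≤ VV P (cm (2 * t)) g := by
  have h := bonf g P hg (2 * t)
  rw [pow_mul] at h
  norm_num at h
  exact h

theorem cm_odd {g : ℕ → ℝ} {P : Finset ℕ} (hg : ∀ p ∈ P, 0 ≤ g p ∧ g p ≤ 1) (t : ℕ) :
    VV P (cm (2 * t)) g - VV P (ce (2 * t + 1)) g ≤ ∏ p ∈ P, (1 - g p) := by
  have h := bonf g P hg (2 * t + 1)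
  rw [pow_succ, pow_mul] at h
  norm_num at h
  have e : VV P (cm (2 * t + 1)) g = VV P (cm (2 * t)) g - VV P (ce (2 * t + 1)) g := by
    rw [← VV_sub]
    exact VV_congr' g fun T _ => cm_succ t T
  rw [← e]
  exact h

theorem ce_nonneg {g : ℕ → ℝ} {P : Finset ℕ} (hg : ∀ p ∈ P, 0 ≤ g p) (n : ℕ) :
    0 ≤ VV P (ce n) g := by
  unfold VV
  refine sum_nonneg fun T hT => mul_nonneg ?_ (prod_nonneg fun p hp => hg p (mem_powerset.1 hT hp))
  unfold ce
  split_ifs <;> norm_num

theorem ce_le (g : ℕ → ℝ) : ∀ (P : Finset ℕ), (∀ p ∈ P, 0 ≤ g p) → ∀ n : ℕ,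
    VV P (ce n) g ≤ (∑ p ∈ P, g p) ^ n / (n.factorial : ℝ) := by
  intro P
  induction P using Finset.induction_on with
  | empty =>
    intro _ n
    rw [VV_empty, sum_empty]
    unfold ce
    rw [card_empty]
    rcases Nat.eq_zero_or_pos n with h | h
    · rw [h]; norm_num
    · rw [if_neg (by omega)]
      positivity
  | insert q P hq ih =>
    intro hg n
    have hP : ∀ p ∈ P, 0 ≤ g p := fun p hp => hg p (mem_insert_of_mem hp)
    have hgq := hg q (mem_insert_self _ _)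
    have hs : 0 ≤ ∑ p ∈ P, g p := sum_nonneg hP
    rw [VV_insert hq, sum_insert hq]
    rcases Nat.eq_zero_or_pos n with h | h
    · have e : VV P (fun T => ce n (insert q T)) g = 0 := by
        rw [← VV_zero P g]
        refine VV_congr' g fun T hT => ?_
        unfold ce
        rw [card_insert_of_notMem fun h' => hq (hT h'), if_neg (by omega)]
      rw [e, mul_zero, add_zero]
      have := ih hP n
      rw [h] at this ⊢
      simpa using this
    · obtain ⟨m, rfl⟩ : ∃ m, n = m + 1 := ⟨n - 1, by omega⟩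
      have e : VV P (fun T => ce (m + 1) (insert q T)) g = VV P (ce m) g := by
        refine VV_congr' g fun T hT => ?_
        unfold ce
        rw [card_insert_of_notMem fun h' => hq (hT h')]
        by_cases h3 : T.card = m
        · rw [if_pos (by omega), if_pos h3]
        · rw [if_neg (by omega), if_neg h3]
      rw [e]
      have h1 := ih hP (m + 1)
      have h2 := mul_le_mul_of_nonneg_left (ih hP m) hgq
      refine (add_le_add h1 h2).trans ?_
      have hf : ((m + 1).factorial : ℝ) = (m + 1) * m.factorial := by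
        rw [Nat.factorial_succ]; push_cast; ring
      have hf0 : (0 : ℝ) < m.factorial := by exact_mod_cast Nat.factorial_pos m
      set s := ∑ p ∈ P, g p with hsd
      have h3 : s ^ (m + 1) / ((m + 1).factorial : ℝ) + g q * (s ^ m / (m.factorial : ℝ)) =
          (s ^ (m + 1) + (m + 1) * g q * s ^ m) / ((m + 1).factorial : ℝ) := by
        rw [hf]
        field_simp
      rw [h3]
      apply div_le_div_of_nonneg_right _ (Nat.cast_nonneg _)
      -- (g + s)^(m+1) ≥ s^(m+1) + (m+1) g s^m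
      have key : ∀ m : ℕ, s ^ (m + 1) + (m + 1) * g q * s ^ m ≤ (g q + s) ^ (m + 1) := by
        intro m
        induction m with
        | zero => norm_num; linarith
        | succ m ih2 =>
          have h5 := mul_le_mul_of_nonneg_right ih2 (show 0 ≤ g q + s by positivity)
          rw [← pow_succ] at h5
          refine le_trans ?_ h5
          push_cast
          have h6 : 0 ≤ (m + 1) * g q ^ 2 * s ^ m := by positivity
          have e5 : (s ^ (m + 1) + (m + 1) * g q * s ^ m) * (g q + s) =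
              s ^ (m + 1 + 1) + (m + 1 + 1) * g q * s ^ (m + 1) + (m + 1) * g q ^ 2 * s ^ m := by
            ring
          rw [e5]
          linarith
      exact key m

/-! ### the blocks -/

/-- the union of the blocks -/
def UB (B : ℕ → Finset ℕ) (r : ℕ) : Finset ℕ := (range r).biUnion B

theorem UB_succ (B : ℕ → Finset ℕ) (r : ℕ) : UB B (r + 1) = UB B r ∪ B r := by
  unfold UB
  rw [range_add_one, biUnion_insert, union_comm]

theorem UB_disj {B : ℕ → Finset ℕ} (hB : ∀ i j, i ≠ j → Disjoint (B i) (B j)) (r : ℕ) :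
    Disjoint (UB B r) (B r) := by
  unfold UB
  rw [disjoint_biUnion_left]
  intro i hi
  rw [mem_range] at hi
  exact hB i r (by omega)

/-- the upper weights -/
noncomputable def AW (B : ℕ → Finset ℕ) : ℕ → Finset ℕ → ℝ
  | 0, _ => 1
  | r + 1, T => AW B r (T ∩ UB B r) * cm (2 * (r + 1)) (T ∩ B r)

/-- the lower weights -/
noncomputable def LW (B : ℕ → Finset ℕ) : ℕ → Finset ℕ → ℝ
  | 0, _ => 1
  | r + 1, T => LW B r (T ∩ UB B r) * cm (2 * (r + 1)) (T ∩ B r) -
      AW B r (T ∩ UB B r) * ce (2 * (r + 1) + 1) (T ∩ B r)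

theorem AW_abs (B : ℕ → Finset ℕ) (r : ℕ) : ∀ T, |AW B r T| ≤ 1 := by
  induction r with
  | zero => intro T; unfold AW; simp
  | succ r ih =>
    intro T
    unfold AW
    rw [abs_mul]
    exact mul_le_one₀ (ih _) (abs_nonneg _) (cm_abs _ _)

theorem LW_abs (B : ℕ → Finset ℕ) (r : ℕ) : ∀ T, |LW B r T| ≤ 1 := by
  induction r with
  | zero => intro T; unfold LW; simp
  | succ r ih =>
    intro T
    unfold LW
    by_cases h : (T ∩ B r).card = 2 * (r + 1) + 1
    · have e1 : cm (2 * (r + 1)) (T ∩ B r) = 0 := by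
        unfold cm
        rw [if_neg (by omega)]
      rw [e1, mul_zero, zero_sub, abs_neg, abs_mul]
      exact mul_le_one₀ (AW_abs B r _) (abs_nonneg _) (ce_abs _ _)
    · have e1 : ce (2 * (r + 1) + 1) (T ∩ B r) = 0 := by
        unfold ce
        rw [if_neg h]
      rw [e1, mul_zero, sub_zero, abs_mul]
      exact mul_le_one₀ (ih _) (abs_nonneg _) (cm_abs _ _)

theorem VA_succ {B : ℕ → Finset ℕ} (hB : ∀ i j, i ≠ j → Disjoint (B i) (B j)) (r : ℕ) (h : ℕ → ℝ) :
    VV (UB B (r + 1)) (AW B (r + 1)) h =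
      VV (UB B r) (AW B r) h * VV (B r) (cm (2 * (r + 1))) h := by
  rw [UB_succ, ← VV_union _ _ (UB_disj hB r)]
  rfl

theorem VL_succ {B : ℕ → Finset ℕ} (hB : ∀ i j, i ≠ j → Disjoint (B i) (B j)) (r : ℕ) (h : ℕ → ℝ) :
    VV (UB B (r + 1)) (LW B (r + 1)) h =
      VV (UB B r) (LW B r) h * VV (B r) (cm (2 * (r + 1))) h -
      VV (UB B r) (AW B r) h * VV (B r) (ce (2 * (r + 1) + 1)) h := by
  rw [UB_succ, ← VV_union _ _ (UB_disj hB r), ← VV_union _ _ (UB_disj hB r), ← VV_sub]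
  rfl

/-- the inequalities -/
theorem sandwich {B : ℕ → Finset ℕ} (hB : ∀ i j, i ≠ j → Disjoint (B i) (B j)) {g : ℕ → ℝ} (r : ℕ)
    (hg : ∀ p ∈ UB B r, 0 ≤ g p ∧ g p ≤ 1) :
    ∏ p ∈ UB B r, (1 - g p) ≤ VV (UB B r) (AW B r) g ∧
      VV (UB B r) (LW B r) g ≤ ∏ p ∈ UB B r, (1 - g p) := by
  induction r with
  | zero =>
    have e : UB B 0 = ∅ := by unfold UB; simp
    rw [e, prod_empty, VV_empty, VV_empty]
    exact ⟨le_rfl, le_rfl⟩
  | succ r ih =>
    have hg1 : ∀ p ∈ UB B r, 0 ≤ g p ∧ g p ≤ 1 := fun p hp => hg p (by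
      rw [UB_succ]; exact mem_union_left _ hp)
    have hg2 : ∀ p ∈ B r, 0 ≤ g p ∧ g p ≤ 1 := fun p hp => hg p (by
      rw [UB_succ]; exact mem_union_right _ hp)
    obtain ⟨h1, h2⟩ := ih hg1
    rw [VA_succ hB, VL_succ hB]
    have e : ∏ p ∈ UB B (r + 1), (1 - g p) = (∏ p ∈ UB B r, (1 - g p)) * ∏ p ∈ B r, (1 - g p) := by
      rw [UB_succ, prod_union (UB_disj hB r)]
    rw [e]
    have i1 : 0 ≤ ∏ p ∈ UB B r, (1 - g p) := prod_nonneg fun p hp => by linarith [(hg1 p hp).2]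
    have i2 : 0 ≤ ∏ p ∈ B r, (1 - g p) := prod_nonneg fun p hp => by linarith [(hg2 p hp).2]
    have h3 := cm_even hg2 (r + 1)
    have h4 := cm_odd hg2 (r + 1)
    have h5 := ce_nonneg (fun p hp => (hg2 p hp).1) (P := B r) (2 * (r + 1) + 1)
    constructor
    · exact mul_le_mul h1 h3 i2 (i1.trans h1)
    · have u1 := mul_le_mul_of_nonneg_right h2 (i2.trans h3)
      have u2 := mul_le_mul_of_nonneg_right h1 h5
      have u3 := mul_le_mul_of_nonneg_left h4 i1
      linarith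

theorem fact_le (j : ℕ) : (6 : ℝ) * 20 ^ j ≤ ((2 * (j + 1) + 1).factorial : ℝ) := by
  induction j with
  | zero => norm_num [Nat.factorial]
  | succ j ih =>
    have e : (2 * (j + 1 + 1) + 1).factorial =
        (2 * (j + 1) + 3) * ((2 * (j + 1) + 2) * (2 * (j + 1) + 1).factorial) := by
      rw [show 2 * (j + 1 + 1) + 1 = (2 * (j + 1) + 1) + 1 + 1 by ring, Nat.factorial_succ,
        Nat.factorial_succ]
    rw [e]
    push_cast
    have h1 : (20 : ℝ) ≤ (2 * ((j : ℝ) + 1) + 3) * (2 * ((j : ℝ) + 1) + 2) := by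
      have : (0 : ℝ) ≤ j := Nat.cast_nonneg _
      nlinarith
    have h2 : (0 : ℝ) < (2 * (j + 1) + 1).factorial := by exact_mod_cast Nat.factorial_pos _
    calc (6 : ℝ) * 20 ^ (j + 1) = 20 * (6 * 20 ^ j) := by ring
      _ ≤ ((2 * ((j : ℝ) + 1) + 3) * (2 * ((j : ℝ) + 1) + 2)) * ((2 * (j + 1) + 1).factorial : ℝ) :=
          mul_le_mul h1 ih (by positivity) (by positivity)
      _ = _ := by ring

/-- the main term of the lower weights -/
theorem main_term {B : ℕ → Finset ℕ} (hB : ∀ i j, i ≠ j → Disjoint (B i) (B j)) {g : ℕ → ℝ} (r : ℕ)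
    (hg : ∀ p ∈ UB B r, 0 ≤ g p ∧ g p ≤ 1) (hs : ∀ j < r, ∑ p ∈ B j, g p ≤ 1)
    (hp : ∀ j < r, Real.exp (-1) ≤ ∏ p ∈ B j, (1 - g p)) :
    (∏ p ∈ UB B r, (1 - g p)) / 2 ≤ VV (UB B r) (LW B r) g := by
  have key : ∀ n ≤ r, VV (UB B n) (AW B n) g * (1 - ∑ j ∈ range n, Real.exp 1 / 6 * (1 / 20) ^ j) ≤
      VV (UB B n) (LW B n) g := by
    intro n
    induction n with
    | zero =>
      intro _
      have e : UB B 0 = ∅ := by unfold UB; simp
      rw [e, VV_empty, VV_empty, sum_range_zero, sub_zero, mul_one]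
      exact le_rfl
    | succ n ih =>
      intro hn
      have ih2 := ih (by omega)
      have hg1 : ∀ p ∈ UB B n, 0 ≤ g p ∧ g p ≤ 1 := fun p hp' => hg p (by
        unfold UB at hp' ⊢
        rw [mem_biUnion] at hp' ⊢
        obtain ⟨a, ha, ha2⟩ := hp'
        exact ⟨a, mem_range.2 (by rw [mem_range] at ha; omega), ha2⟩)
      have hg2 : ∀ p ∈ B n, 0 ≤ g p ∧ g p ≤ 1 := fun p hp' => hg p (by
        unfold UB
        rw [mem_biUnion]
        exact ⟨n, mem_range.2 (by omega), hp'⟩)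
      have i1 : 0 ≤ ∏ p ∈ UB B n, (1 - g p) := prod_nonneg fun p hp => by linarith [(hg1 p hp).2]
      have hA := i1.trans (sandwich hB n hg1).1
      rw [VA_succ hB, VL_succ hB, sum_range_succ]
      have h3 := (hp n (by omega)).trans (cm_even hg2 (n + 1))
      have h4 := ce_le g (B n) (fun p hp' => (hg2 p hp').1) (2 * (n + 1) + 1)
      have hs0 : 0 ≤ ∑ p ∈ B n, g p := sum_nonneg fun p hp' => (hg2 p hp').1
      have h5 : (∑ p ∈ B n, g p) ^ (2 * (n + 1) + 1) ≤ 1 := pow_le_one₀ hs0 (hs n (by omega))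
      have h6 : VV (B n) (ce (2 * (n + 1) + 1)) g ≤ 1 / 6 * (1 / 20) ^ n := by
        refine h4.trans ?_
        have hf := fact_le n
        have hf0 : (0 : ℝ) < 6 * 20 ^ n := by positivity
        calc (∑ p ∈ B n, g p) ^ (2 * (n + 1) + 1) / ((2 * (n + 1) + 1).factorial : ℝ) ≤
            1 / (6 * 20 ^ n) := by
              apply div_le_div₀ (by norm_num) h5 hf0 hf
          _ = 1 / 6 * (1 / 20) ^ n := by
              rw [one_div_pow]; field_simp
      have h7 : VV (B n) (ce (2 * (n + 1) + 1)) g ≤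
          Real.exp 1 / 6 * (1 / 20) ^ n * VV (B n) (cm (2 * (n + 1))) g := by
        calc VV (B n) (ce (2 * (n + 1) + 1)) g ≤ 1 / 6 * (1 / 20) ^ n := h6
          _ = Real.exp 1 / 6 * (1 / 20) ^ n * Real.exp (-1) := by
              rw [Real.exp_neg]; field_simp
          _ ≤ _ := mul_le_mul_of_nonneg_left h3 (by positivity)
      have hA' : 0 ≤ VV (B n) (cm (2 * (n + 1))) g := (Real.exp_pos _).le.trans h3
      have u1 := mul_le_mul_of_nonneg_right ih2 hA'
      have u2 := mul_le_mul_of_nonneg_left h7 hA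
      linarith
  have h1 := key r le_rfl
  have hA := (sandwich hB r hg).1
  have i1 : 0 ≤ ∏ p ∈ UB B r, (1 - g p) := prod_nonneg fun p hp => by linarith [(hg p hp).2]
  have h2 : ∑ j ∈ range r, Real.exp 1 / 6 * (1 / 20 : ℝ) ^ j ≤ 1 / 2 := by
    rw [← mul_sum]
    have h3 : ∑ j ∈ range r, (1 / 20 : ℝ) ^ j ≤ 20 / 19 := by
      have h4 : ∀ n : ℕ, ∑ j ∈ range n, (1 / 20 : ℝ) ^ j = 20 / 19 * (1 - (1 / 20) ^ n) := by
        intro n
        induction n with
        | zero => norm_num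
        | succ n ih => rw [sum_range_succ, ih, pow_succ]; ring
      rw [h4]
      have : (0 : ℝ) ≤ (1 / 20) ^ r := by positivity
      nlinarith
    have h5 := Real.exp_one_lt_d9
    have h6 : 0 < Real.exp 1 := Real.exp_pos _
    calc Real.exp 1 / 6 * ∑ j ∈ range r, (1 / 20 : ℝ) ^ j ≤ Real.exp 1 / 6 * (20 / 19) :=
          mul_le_mul_of_nonneg_left h3 (by positivity)
      _ ≤ 1 / 2 := by linarith
  have hA0 := i1.trans hA
  nlinarith

/-! ### the level -/

theorem AW_zero {B : ℕ → Finset ℕ} {z : ℕ → ℝ} (hz : ∀ j, 1 ≤ z j) (hp : ∀ j, ∀ p ∈ B j, (p : ℝ) ≤ z j)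
    (r : ℕ) : ∀ T ⊆ UB B r, AW B r T ≠ 0 → ((∏ p ∈ T, p : ℕ) : ℝ) ≤ ∏ j ∈ range r, z j ^ (2 * (j + 1)) := by
  induction r with
  | zero =>
    intro T hT _
    have e : UB B 0 = ∅ := by unfold UB; simp
    rw [e, subset_empty] at hT
    rw [hT]
    simp
  | succ r ih =>
    intro T hT hne
    unfold AW at hne
    have h1 := left_ne_zero_of_mul hne
    have h2 := right_ne_zero_of_mul hne
    have h3 := ih (T ∩ UB B r) inter_subset_right h1
    have h4 : (T ∩ B r).card ≤ 2 * (r + 1) := by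
      by_contra hcon
      apply h2
      unfold cm
      rw [if_neg hcon]
    have h5 : ((∏ p ∈ T ∩ B r, p : ℕ) : ℝ) ≤ z r ^ (2 * (r + 1)) := by
      push_cast
      calc ∏ p ∈ T ∩ B r, (p : ℝ) ≤ ∏ p ∈ T ∩ B r, z r :=
            prod_le_prod (fun p _ => Nat.cast_nonneg _) fun p hp' => hp r p (mem_inter.1 hp').2
        _ = z r ^ (T ∩ B r).card := by rw [prod_const]
        _ ≤ _ := pow_le_pow_right₀ (hz r) h4
    have hcov : T = (T ∩ UB B r) ∪ (T ∩ B r) := by
      rw [← inter_union_distrib_left, ← UB_succ]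
      exact (inter_eq_left.2 hT).symm
    rw [prod_range_succ]
    have h6 : ((∏ p ∈ T, p : ℕ) : ℝ) ≤ ((∏ p ∈ T ∩ UB B r, p : ℕ) : ℝ) * ((∏ p ∈ T ∩ B r, p : ℕ) : ℝ) := by
      rcases Nat.eq_zero_or_pos (∏ p ∈ T, p) with h0 | h0
      · rw [h0, Nat.cast_zero]
        positivity
      · have h7 : ∀ p ∈ T, 1 ≤ p := fun p hp' => by
          by_contra h8
          have h9 : p = 0 := by omega
          rw [h9] at hp'
          rw [prod_eq_zero hp' rfl] at h0
          omega
        have h8 : ∏ p ∈ T, p ∣ (∏ p ∈ T ∩ UB B r, p) * ∏ p ∈ T ∩ B r, p := by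
          conv_lhs => rw [hcov]
          rw [← prod_union_inter (s₁ := T ∩ UB B r)]
          exact Dvd.intro _ rfl
        have h9 : 0 < (∏ p ∈ T ∩ UB B r, p) * ∏ p ∈ T ∩ B r, p :=
          Nat.mul_pos (prod_pos fun p hp' => h7 p (mem_inter.1 hp').1)
            (prod_pos fun p hp' => h7 p (mem_inter.1 hp').1)
        exact_mod_cast Nat.le_of_dvd h9 h8
    refine h6.trans (mul_le_mul h3 h5 (Nat.cast_nonneg _) ?_)
    exact prod_nonneg fun j _ => pow_nonneg (by linarith [hz j]) _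

theorem LW_zero {B : ℕ → Finset ℕ} {z : ℕ → ℝ} (hz : ∀ j, 1 ≤ z j) (hz0 : ∀ j, z j ≤ z 0)
    (hp : ∀ j, ∀ p ∈ B j, (p : ℝ) ≤ z j)
    (r : ℕ) : ∀ T ⊆ UB B r, LW B r T ≠ 0 →
      ((∏ p ∈ T, p : ℕ) : ℝ) ≤ z 0 * ∏ j ∈ range r, z j ^ (2 * (j + 1)) := by
  induction r with
  | zero =>
    intro T hT _
    have e : UB B 0 = ∅ := by unfold UB; simp
    rw [e, subset_empty] at hT
    rw [hT]
    simpa using hz 0
  | succ r ih =>
    intro T hT hne
    have hcov : T = (T ∩ UB B r) ∪ (T ∩ B r) := by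
      rw [← inter_union_distrib_left, ← UB_succ]
      exact (inter_eq_left.2 hT).symm
    have h6 : ((∏ p ∈ T, p : ℕ) : ℝ) ≤ ((∏ p ∈ T ∩ UB B r, p : ℕ) : ℝ) * ((∏ p ∈ T ∩ B r, p : ℕ) : ℝ) := by
      rcases Nat.eq_zero_or_pos (∏ p ∈ T, p) with h0 | h0
      · rw [h0, Nat.cast_zero]
        positivity
      · have h7 : ∀ p ∈ T, 1 ≤ p := fun p hp' => by
          by_contra h8
          have h9 : p = 0 := by omega
          rw [h9] at hp'
          rw [prod_eq_zero hp' rfl] at h0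
          omega
        have h8 : ∏ p ∈ T, p ∣ (∏ p ∈ T ∩ UB B r, p) * ∏ p ∈ T ∩ B r, p := by
          conv_lhs => rw [hcov]
          rw [← prod_union_inter (s₁ := T ∩ UB B r)]
          exact Dvd.intro _ rfl
        have h9 : 0 < (∏ p ∈ T ∩ UB B r, p) * ∏ p ∈ T ∩ B r, p :=
          Nat.mul_pos (prod_pos fun p hp' => h7 p (mem_inter.1 hp').1)
            (prod_pos fun p hp' => h7 p (mem_inter.1 hp').1)
        exact_mod_cast Nat.le_of_dvd h9 h8
    have hbl : ∀ n : ℕ, (T ∩ B r).card ≤ n → ((∏ p ∈ T ∩ B r, p : ℕ) : ℝ) ≤ z r ^ n := by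
      intro n hn
      push_cast
      calc ∏ p ∈ T ∩ B r, (p : ℝ) ≤ ∏ p ∈ T ∩ B r, z r :=
            prod_le_prod (fun p _ => Nat.cast_nonneg _) fun p hp' => hp r p (mem_inter.1 hp').2
        _ = z r ^ (T ∩ B r).card := by rw [prod_const]
        _ ≤ _ := pow_le_pow_right₀ (hz r) hn
    have hpr : (0 : ℝ) ≤ ∏ j ∈ range r, z j ^ (2 * (j + 1)) :=
      prod_nonneg fun j _ => pow_nonneg (by linarith [hz j]) _
    have hz00 : 0 ≤ z 0 := by linarith [hz 0]
    have hzr : 0 ≤ z r := by linarith [hz r]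
    rw [prod_range_succ]
    unfold LW at hne
    by_cases hA : (T ∩ B r).card = 2 * (r + 1) + 1
    · have e1 : cm (2 * (r + 1)) (T ∩ B r) = 0 := by
        unfold cm
        rw [if_neg (by omega)]
      rw [e1, mul_zero, zero_sub] at hne
      have h1 := left_ne_zero_of_mul (neg_ne_zero.1 hne)
      have h3 := AW_zero hz hp r (T ∩ UB B r) inter_subset_right h1
      have h5 := hbl _ hA.le
      calc ((∏ p ∈ T, p : ℕ) : ℝ) ≤ ((∏ p ∈ T ∩ UB B r, p : ℕ) : ℝ) * ((∏ p ∈ T ∩ B r, p : ℕ) : ℝ) := h6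
        _ ≤ (∏ j ∈ range r, z j ^ (2 * (j + 1))) * z r ^ (2 * (r + 1) + 1) :=
            mul_le_mul h3 h5 (Nat.cast_nonneg _) hpr
        _ = z r * ((∏ j ∈ range r, z j ^ (2 * (j + 1))) * z r ^ (2 * (r + 1))) := by
            rw [pow_succ]; ring
        _ ≤ z 0 * ((∏ j ∈ range r, z j ^ (2 * (j + 1))) * z r ^ (2 * (r + 1))) :=
            mul_le_mul_of_nonneg_right (hz0 r) (mul_nonneg hpr (pow_nonneg hzr _))
    · have e1 : ce (2 * (r + 1) + 1) (T ∩ B r) = 0 := by
        unfold ce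
        rw [if_neg hA]
      rw [e1, mul_zero, sub_zero] at hne
      have h1 := left_ne_zero_of_mul hne
      have h2 := right_ne_zero_of_mul hne
      have h3 := ih (T ∩ UB B r) inter_subset_right h1
      have h4 : (T ∩ B r).card ≤ 2 * (r + 1) := by
        by_contra hcon
        apply h2
        unfold cm
        rw [if_neg hcon]
      have h5 := hbl _ h4
      calc ((∏ p ∈ T, p : ℕ) : ℝ) ≤ ((∏ p ∈ T ∩ UB B r, p : ℕ) : ℝ) * ((∏ p ∈ T ∩ B r, p : ℕ) : ℝ) := h6
        _ ≤ (z 0 * ∏ j ∈ range r, z j ^ (2 * (j + 1))) * z r ^ (2 * (r + 1)) :=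
            mul_le_mul h3 h5 (Nat.cast_nonneg _) (mul_nonneg hz00 hpr)
        _ = _ := by ring

end Run7.h870.LK
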