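import Pool.Agent.Run7.h870.LK.Many
import Pool.Agent.Run7.h870.LG.Dat

/-!
# The data of a system of irreducible polynomials
-/

set_option autoImplicit false
set_option linter.all false

namespace Run7.h870.LK

open Finset Filter Topology Polynomial
open Pool.Agent.Y882
open Pool.Agent.W23.DC
open Pool.Agent.Y882.KW Pool.Agent.Y882.PX
open Pool.Agent.H474R2.PG (rho)
open Pool.Agent.H373R2.T7 (nuB PerB pz)
open Run7.h870.LG
open Run7.h870.LI (Per rr per_mod)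
open Pool.Agent.W123.RU.Poly (Sys ncolR exists_c exists_p1 V_bounds nuB_le_sum sum_le_nuB)
open scoped Classical

variable {ι : Type} [Fintype ι]

/-- the product of the polynomials -/
noncomputable def Pf (f : ι → ℤ[X]) : ℤ[X] := ∏ i, f i

theorem Qf_iff (f : ι → ℤ[X]) {p : ℕ} (hp : p.Prime) (n : ℕ) :
    Qf (Fv (Pf f)) p n ↔ Pool.Agent.W123.RU.Poly.Q f p n := by
  unfold Qf Fv Pf Pool.Agent.W123.RU.Poly.Q
  rw [eval_prod, (Nat.prime_iff_prime_int.1 hp).dvd_finset_prod_iff]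
  simp

theorem rr_nuB (f : ι → ℤ[X]) {p : ℕ} (hp : p.Prime) :
    nuB (Pool.Agent.W123.RU.Poly.Q f) p = rr (Qf (Fv (Pf f))) p := by
  unfold nuB Run7.h870.LI.rr
  congr 1
  ext n
  rw [mem_filter, mem_filter, Qf_iff f hp]

theorem base_K (f : ι → ℤ[X]) (hf : Sys f) : ∃ c : ℕ, 1 ≤ c ∧ Base (Qf (Fv (Pf f))) c := by
  obtain ⟨c, hc, hP⟩ := exists_c f hf
  refine ⟨c, hc, ⟨?_, ?_, ?_⟩⟩
  · intro p n
    unfold Qf
    exact Int.dvd_iff_dvd_of_dvd_sub (per_f (Pf f) p n)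
  · intro p hp
    rw [← rr_nuB f hp]
    exact hP.few p hp
  · intro p hp
    rw [← rr_nuB f hp]
    exact Pool.Agent.W123.RU.Poly.adm _ hf p hp

theorem low_K (f : ι → ℤ[X]) (hf : Sys f) : ∃ cl : ℝ, 0 < cl ∧ ∀ y : ℕ, 3 ≤ y →
    cl / Real.log y ^ (Fintype.card ι) ≤ V1 (Qf (Fv (Pf f))) ((Icc 1 y).filter Nat.Prime) := by
  obtain ⟨v, Cv, hv, hCv, H⟩ := V_bounds f hf
  refine ⟨v, hv, fun y hy => ?_⟩
  refine ((H y hy).1).trans (le_of_eq ?_)
  unfold Pool.Agent.W123.RP.Vq V1 pz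
  refine prod_congr ?_ fun p hp => ?_
  · congr
  · rw [rr_nuB f (mem_filter.1 hp).2]

theorem mer_K (f : ι → ℤ[X]) (hf : Sys f) (ε₁ υ η : ℝ) (hε : 0 < ε₁) (hυ : υ ≤ 1) (hη : 0 < η) :
    ∃ Y0 : ℕ, ∀ Y : ℕ, Y0 ≤ Y →
      MerK (Fintype.card ι) (pr Y ε₁ υ) (tt Y) (gg (Qf (Fv (Pf f)))) ε₁ υ η := by
  obtain ⟨N, hN⟩ : ∃ N : ℝ, N = (Fintype.card ι : ℝ) + 1 := ⟨_, rfl⟩
  have hN0 : 0 < N := by rw [hN]; positivity
  choose Y0 h0 using fun i => mer_of_mean (fun p => (rho (f i) p : ℝ)) (mean_rho (f i) (hf.irr i) (hf.deg i))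
    ε₁ υ (η / N) hε hυ (by positivity)
  obtain ⟨p1, hp1⟩ := exists_p1 f hf
  have ev : ∀ᶠ Y : ℕ in atTop, (p1 : ℝ) + 1 ≤ (Y : ℝ) ^ ε₁ :=
    ((tendsto_rpow_atTop hε).comp tendsto_natCast_atTop_atTop).eventually_ge_atTop _
  obtain ⟨Y1, hY1⟩ := eventually_atTop.1 (ev.and (eventually_ge_atTop 2))
  refine ⟨∑ i, Y0 i + Y1, fun Y hY => ?_⟩
  obtain ⟨e1, e2⟩ := hY1 Y (by omega)
  intro a b ha hab hb
  have h1 : ∀ i, |∑ p ∈ (pr Y ε₁ υ).filter (fun p => a ≤ tt Y p ∧ tt Y p < b), (rho (f i) p : ℝ) / p -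
      Real.log (b / a)| ≤ η / N := by
    intro i
    have h2 : Y0 i ≤ ∑ i, Y0 i := Finset.single_le_sum (fun _ _ => Nat.zero_le _) (mem_univ i)
    exact h0 i Y (by omega) a b ha hab hb
  have h3 : ∑ p ∈ (pr Y ε₁ υ).filter (fun p => a ≤ tt Y p ∧ tt Y p < b), gg (Qf (Fv (Pf f))) p =
      ∑ i, ∑ p ∈ (pr Y ε₁ υ).filter (fun p => a ≤ tt Y p ∧ tt Y p < b), (rho (f i) p : ℝ) / p := by
    rw [sum_comm]
    refine sum_congr rfl fun p hp => ?_
    obtain ⟨h4, h5, h6⟩ := pr_mem Y p ε₁ υ e2 (mem_filter.1 hp).1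
    have h7 : p1 < p := by
      have : (p1 : ℝ) < p := by linarith
      exact_mod_cast this
    unfold gg
    rw [← rr_nuB f h4, ← sum_div]
    congr 1
    have h8 : nuB (Pool.Agent.W123.RU.Poly.Q f) p = ∑ i, rho (f i) p :=
      le_antisymm (nuB_le_sum f p) (sum_le_nuB f p (hp1 p h4 h7))
    rw [h8]
    push_cast
    rfl
  rw [h3]
  have h4 : ∑ i, ∑ p ∈ (pr Y ε₁ υ).filter (fun p => a ≤ tt Y p ∧ tt Y p < b), (rho (f i) p : ℝ) / p -
      (Fintype.card ι : ℝ) * Real.log (b / a) =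
      ∑ i, (∑ p ∈ (pr Y ε₁ υ).filter (fun p => a ≤ tt Y p ∧ tt Y p < b), (rho (f i) p : ℝ) / p -
        Real.log (b / a)) := by
    rw [sum_sub_distrib, sum_const, card_univ, nsmul_eq_mul]
  rw [h4]
  refine (abs_sum_le_sum_abs _ _).trans ?_
  refine (sum_le_sum fun i _ => h1 i).trans ?_
  rw [sum_const, card_univ, nsmul_eq_mul, ← mul_div_assoc, div_le_iff₀ hN0, hN]
  nlinarith

theorem datK (f : ι → ℤ[X]) (hf : Sys f) (hne : 1 ≤ Fintype.card ι)
    (hsh : ∀ i j, ∀ t : ℤ, 1 ≤ t → f i ≠ (f j).comp (X + C t)) :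
    ∃ (c D : ℕ) (cl : ℝ) (R : ℕ → ℕ),
      DatK (Fv (Pf f)) c (Fintype.card ι) (Pf f).natDegree D cl R := by
  obtain ⟨c, hc, hb⟩ := base_K f hf
  obtain ⟨cl, hcl, hlow⟩ := low_K f hf
  choose R hR1 hR2 using fun i j : ι => ncolR (f i) (f j) (hf.irr i) (hf.irr j) (hf.deg i) (hf.deg j)
    (hf.lead i) (hf.lead j)
  obtain ⟨RR, hRR⟩ : ∃ RR : ℤ[X], RR = ∏ i, ∏ j, R i j := ⟨_, rfl⟩
  obtain ⟨K1, hK1, HK1⟩ := Pool.Agent.H474R2.GE.eval_bound RR
  obtain ⟨K2, hK2, HK2⟩ := Pool.Agent.H474R2.GE.eval_bound (Pf f)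
  obtain ⟨k1, hk1⟩ := exists_nat_ge K1
  obtain ⟨k2, hk2⟩ := exists_nat_ge K2
  obtain ⟨D, hD⟩ : ∃ D, D = k1 + k2 + RR.natDegree + (Pf f).natDegree := ⟨_, rfl⟩
  refine ⟨c, D, cl, fun h => (RR.eval (h : ℤ)).natAbs, hb, hc, hne, hcl, hlow, mer_K f hf, ?_, ?_, ?_, ?_⟩
  · intro h hh
    rw [Ne, Int.natAbs_eq_zero, hRR, eval_prod]
    apply Finset.prod_ne_zero_iff.2
    intro i _
    rw [eval_prod]
    apply Finset.prod_ne_zero_iff.2
    intro j _
    exact hR1 i j h (hsh i j h (by exact_mod_cast hh))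
  · intro p n h hp hh h1 h2
    apply Int.natCast_dvd.1
    rw [Qf_iff f hp] at h1 h2
    obtain ⟨i, hi⟩ := h1
    obtain ⟨j, hj⟩ := h2
    have h3 : ((n + h : ℕ) : ℤ) = (n : ℤ) + h := by push_cast; ring
    rw [h3] at hj
    have h4 := hR2 i j (h : ℤ) (n : ℤ) (p : ℤ) hi hj
    rw [hRR, eval_prod]
    refine h4.trans ?_
    refine dvd_trans ?_ (Finset.dvd_prod_of_mem _ (mem_univ i))
    rw [eval_prod]
    exact Finset.dvd_prod_of_mem _ (mem_univ j)
  · intro h hh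
    have hh1 : (1 : ℝ) ≤ h := by exact_mod_cast hh
    have h1 := HK1 (h : ℤ) (h : ℝ) hh1 (by
      rw [Int.cast_natCast, abs_of_nonneg (by linarith)])
    have h2 : (((RR.eval (h : ℤ)).natAbs : ℕ) : ℝ) ≤ ((D * h ^ D : ℕ) : ℝ) := by
      rw [Nat.cast_natAbs, Int.cast_abs]
      refine h1.trans ?_
      push_cast
      have h3 : (h : ℝ) ^ RR.natDegree ≤ (h : ℝ) ^ D := pow_le_pow_right₀ hh1 (by omega)
      have h4 : K1 ≤ D := by
        have : (k1 : ℝ) ≤ D := by exact_mod_cast (by omega : k1 ≤ D)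
        linarith
      exact mul_le_mul h4 h3 (by positivity) (by positivity)
    exact_mod_cast h2
  · intro n hn
    have hh1 : (1 : ℝ) ≤ n := by exact_mod_cast hn
    have h1 := HK2 (n : ℤ) (n : ℝ) hh1 (by
      rw [Int.cast_natCast, abs_of_nonneg (by linarith)])
    have h2 : ((((Pf f).eval (n : ℤ)).natAbs : ℕ) : ℝ) ≤ ((D * n ^ (Pf f).natDegree : ℕ) : ℝ) := by
      rw [Nat.cast_natAbs, Int.cast_abs]
      refine h1.trans ?_
      push_cast
      have h4 : K2 ≤ D := by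
        have : (k2 : ℝ) ≤ D := by exact_mod_cast (by omega : k2 ≤ D)
        linarith
      exact mul_le_mul_of_nonneg_right h4 (by positivity)
    unfold Fv
    exact_mod_cast h2

/-! ### removing the shifts -/

/-- the polynomial in a residue class -/
noncomputable def gq (q a : ℕ) (f : ℤ[X]) : ℤ[X] := f.comp (C (q : ℤ) * X + C (a : ℤ))

theorem gq_eval (q a : ℕ) (f : ℤ[X]) (x : ℤ) : (gq q a f).eval x = f.eval (q * x + a) := by
  unfold gq
  simp [eval_comp]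

theorem eq_of_vals {f g : ℤ[X]} {q : ℕ} (hq : 0 < q) (a : ℤ)
    (h : ∀ x : ℤ, f.eval (q * x + a) = g.eval (q * x + a)) : f = g := by
  apply Polynomial.eq_of_infinite_eval_eq
  apply Set.infinite_of_injective_forall_mem (f := fun n : ℤ => (q : ℤ) * n + a)
  · intro x y hxy
    have h1 : (q : ℤ) * x + a = q * y + a := hxy
    have h2 : (q : ℤ) ≠ 0 := by exact_mod_cast hq.ne'
    exact mul_left_cancel₀ h2 (by linarith)
  · intro n
    exact h n

/-- finitely many shifts -/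
theorem shifts_fin (f : ι → ℤ[X]) (hf : Sys f) : ∃ T0 : ℕ, ∀ i j, ∀ t : ℤ, f i = (f j).comp (X + C t) →
    t.natAbs ≤ T0 := by
  have h1 : ∀ i j, ∃ t0 : ℕ, ∀ t : ℤ, f i = (f j).comp (X + C t) → t.natAbs = t0 := by
    intro i j
    by_cases h : ∃ t : ℤ, f i = (f j).comp (X + C t)
    · obtain ⟨t, ht⟩ := h
      refine ⟨t.natAbs, fun t' ht' => ?_⟩
      by_contra hne
      have hne2 : t' - t ≠ 0 := by
        intro h0
        apply hne
        rw [show t' = t by linarith]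
      have h2 : (f j).comp (X + C (t' - t)) = f j := by
        have h3 : ((f j).comp (X + C t')).comp (X + C (-t)) = ((f j).comp (X + C t)).comp (X + C (-t)) := by
          rw [← ht, ← ht']
        rw [comp_assoc, comp_assoc] at h3
        have e1 : (X + C t' : ℤ[X]).comp (X + C (-t)) = X + C (t' - t) := by
          simp only [add_comp, X_comp, C_comp, map_neg, map_sub]
          ring
        have e2 : (X + C t : ℤ[X]).comp (X + C (-t)) = X := by
          simp only [add_comp, X_comp, C_comp, map_neg]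
          ring
        rw [e1, e2, comp_X] at h3
        exact h3
      apply Pool.Agent.H474R2.PG.ncol_not_periodic ((f j).map (Int.castRingHom ℚ)) _ ((t' - t : ℤ) : ℚ)
        (by exact_mod_cast hne2)
      · have := congrArg (Polynomial.map (Int.castRingHom ℚ)) h2
        rw [Polynomial.map_comp] at this
        simpa using this
      · rw [natDegree_map_eq_of_injective (RingHom.injective_int _)]
        exact hf.deg j
    · exact ⟨0, fun t ht => absurd ⟨t, ht⟩ h⟩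
  choose t0 ht0 using h1
  refine ⟨∑ i, ∑ j, t0 i j, fun i j t ht => ?_⟩
  rw [ht0 i j t ht]
  have h4 : t0 i j ≤ ∑ j, t0 i j :=
    Finset.single_le_sum (f := fun j => t0 i j) (fun _ _ => Nat.zero_le _) (mem_univ j)
  have h5 : ∑ j, t0 i j ≤ ∑ i, ∑ j, t0 i j :=
    Finset.single_le_sum (f := fun i => ∑ j, t0 i j) (fun _ _ => Nat.zero_le _) (mem_univ i)
  omega

theorem gq_natDegree {q : ℕ} (hq : 0 < q) (a : ℕ) (f : ℤ[X]) : (gq q a f).natDegree = f.natDegree := by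
  unfold gq
  rw [natDegree_comp]
  have : (C (q : ℤ) * X + C (a : ℤ) : ℤ[X]).natDegree = 1 :=
    natDegree_linear (by exact_mod_cast hq.ne')
  rw [this, mul_one]

theorem gq_lead {q : ℕ} (hq : 0 < q) (a : ℕ) {f : ℤ[X]} (hf : 0 < f.leadingCoeff) :
    0 < (gq q a f).leadingCoeff := by
  unfold gq
  have h1 : (C (q : ℤ) * X + C (a : ℤ) : ℤ[X]).natDegree = 1 :=
    natDegree_linear (by exact_mod_cast hq.ne')
  rw [leadingCoeff_comp (by rw [h1]; norm_num)]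
  have h2 : (C (q : ℤ) * X + C (a : ℤ) : ℤ[X]).leadingCoeff = q :=
    leadingCoeff_linear (by exact_mod_cast hq.ne')
  rw [h2]
  have h3 : (0 : ℤ) < q := by exact_mod_cast hq
  positivity

theorem gq_irr {q : ℕ} (hq : q.Prime) (a : ℕ) {f : ℤ[X]} (hf : Irreducible f) (hd : 0 < f.natDegree)
    (ha : ¬ (q : ℤ) ∣ f.eval (a : ℤ)) (hadm : ∀ p : ℕ, p.Prime → ∃ m : ℕ, ¬ (p : ℤ) ∣ f.eval (m : ℤ)) :
    Irreducible (gq q a f) := by
  have hinj : Function.Injective (Int.castRingHom ℚ) := RingHom.injective_int _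
  have hprim : (gq q a f).IsPrimitive := by
    intro r hr
    by_contra hu
    have hr0 : r.natAbs ≠ 1 := fun h => hu (Int.isUnit_iff_natAbs_eq.2 h)
    obtain ⟨p, hp, hpr⟩ := Nat.exists_prime_and_dvd hr0
    have hpr' : (p : ℤ) ∣ r := Int.natCast_dvd.2 hpr
    have hall : ∀ x : ℤ, (p : ℤ) ∣ f.eval (q * x + a) := by
      intro x
      rw [← gq_eval]
      obtain ⟨s, hs⟩ := hr
      rw [hs, eval_mul, eval_C]
      exact hpr'.mul_right _
    by_cases hpq : p = q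
    · apply ha
      have := hall 0
      rw [mul_zero, zero_add, hpq] at this
      exact this
    · obtain ⟨m, hm⟩ := hadm p hp
      have hcop : IsCoprime (q : ℤ) (p : ℤ) :=
        Nat.isCoprime_iff_coprime.2 ((Nat.coprime_primes hq hp).2 (Ne.symm hpq))
      obtain ⟨u, v, huv⟩ := hcop
      apply hm
      have h1 := hall (u * ((m : ℤ) - a))
      have h2 : (p : ℤ) ∣ ((q : ℤ) * (u * ((m : ℤ) - a)) + a) - m := by
        refine ⟨-(v * ((m : ℤ) - a)), ?_⟩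
        have h3 : (q : ℤ) * u = 1 - v * p := by linarith
        calc ((q : ℤ) * (u * ((m : ℤ) - a)) + a) - m = (q * u) * ((m : ℤ) - a) + a - m := by ring
          _ = (1 - v * p) * ((m : ℤ) - a) + a - m := by rw [h3]
          _ = _ := by ring
      have h4 := h2.trans (sub_dvd_eval_sub _ _ f)
      exact (Int.dvd_iff_dvd_of_dvd_sub h4).1 h1
  rw [IsPrimitive.Int.irreducible_iff_irreducible_map_cast hprim]
  have hfp : f.IsPrimitive := hf.isPrimitive hd.ne'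
  have hfQ := (IsPrimitive.Int.irreducible_iff_irreducible_map_cast hfp).1 hf
  have hq0 : (q : ℚ) ≠ 0 := by exact_mod_cast hq.pos.ne'
  letI : Invertible (q : ℚ) := invertibleOfNonzero hq0
  have e : (gq q a f).map (Int.castRingHom ℚ) =
      algEquivCMulXAddC (q : ℚ) (a : ℚ) (f.map (Int.castRingHom ℚ)) := by
    unfold gq
    rw [algEquivCMulXAddC_apply, Polynomial.map_comp, Polynomial.aeval_def, Polynomial.comp]
    simp [algebraMap_eq]
  rw [e]
  exact (MulEquiv.irreducible_iff (algEquivCMulXAddC (q : ℚ) (a : ℚ))).2 hfQ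

theorem gq_sys (f : ι → ℤ[X]) (hf : Sys f) (hne : 1 ≤ Fintype.card ι) : ∃ q a : ℕ, 2 ≤ q ∧ a < q ∧
    Sys (fun i => gq q a (f i)) ∧
    ∀ i j, ∀ t : ℤ, 1 ≤ t → gq q a (f i) ≠ (gq q a (f j)).comp (X + C t) := by
  obtain ⟨T0, hT0⟩ := shifts_fin f hf
  obtain ⟨q, hq1, hq⟩ := Nat.exists_infinite_primes (T0 + 1)
  obtain ⟨m, hm⟩ := hf.adm q hq
  have ha : ∀ i, ¬ (q : ℤ) ∣ (f i).eval ((m % q : ℕ) : ℤ) := fun i h =>
    hm i ((Pool.Agent.W123.RU.Poly.per1 (f i) q m).2 h)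
  refine ⟨q, m % q, hq.two_le, Nat.mod_lt _ hq.pos, ⟨?_, ?_, ?_, ?_, ?_⟩, ?_⟩
  · intro i
    exact gq_irr hq _ (hf.irr i) (hf.deg i) (ha i) fun p hp => by
      obtain ⟨m', hm'⟩ := hf.adm p hp
      exact ⟨m', hm' i⟩
  · intro i
    show 0 < (gq q (m % q) (f i)).natDegree
    rw [gq_natDegree hq.pos]
    exact hf.deg i
  · intro i
    exact gq_lead hq.pos _ (hf.lead i)
  · intro i j hij
    apply hf.inj
    apply eq_of_vals hq.pos ((m % q : ℕ) : ℤ)
    intro x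
    have h1 : gq q (m % q) (f i) = gq q (m % q) (f j) := hij
    rw [← gq_eval, ← gq_eval, h1]
  · intro p hp
    by_cases hpq : p = q
    · refine ⟨0, fun i h => ha i ?_⟩
      have h1 : (p : ℤ) ∣ (gq q (m % q) (f i)).eval ((0 : ℕ) : ℤ) := h
      rw [gq_eval, Nat.cast_zero, mul_zero, zero_add, hpq] at h1
      exact h1
    · obtain ⟨m', hm'⟩ := hf.adm p hp
      -- `x` with `q x + a ≡ m' (mod p)`
      have hcop : Nat.Coprime q p := (Nat.coprime_primes hq hp).2 (Ne.symm hpq)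
      obtain ⟨x, hx⟩ : ∃ x : ℕ, (p : ℤ) ∣ ((q : ℤ) * x + ((m % q : ℕ) : ℤ)) - m' := by
        obtain ⟨u, v, huv⟩ := Nat.isCoprime_iff_coprime.2 hcop
        obtain ⟨y, hy⟩ : ∃ y : ℤ, y = u * ((m' : ℤ) - ((m % q : ℕ) : ℤ)) := ⟨_, rfl⟩
        refine ⟨(y % p).toNat, ?_⟩
        have hp0 : (0 : ℤ) < p := by exact_mod_cast hp.pos
        have h5 : (((y % p).toNat : ℕ) : ℤ) = y % p := Int.toNat_of_nonneg (Int.emod_nonneg _ hp0.ne')
        rw [h5]
        have h6 : y % p = y - p * (y / p) := by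
          have := Int.emod_add_mul_ediv y p
          linarith
        rw [h6, hy]
        refine ⟨-(v * ((m' : ℤ) - ((m % q : ℕ) : ℤ))) - q * (u * ((m' : ℤ) - ((m % q : ℕ) : ℤ)) / p), ?_⟩
        have h3 : (q : ℤ) * u = 1 - v * p := by linarith
        have h7 : (q : ℤ) * (u * ((m' : ℤ) - ((m % q : ℕ) : ℤ)) - p * (u * ((m' : ℤ) - ((m % q : ℕ) : ℤ)) / p)) +
            ((m % q : ℕ) : ℤ) - m' = (q * u) * ((m' : ℤ) - ((m % q : ℕ) : ℤ)) -
            q * (p * (u * ((m' : ℤ) - ((m % q : ℕ) : ℤ)) / p)) + ((m % q : ℕ) : ℤ) - m' := by ring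
        rw [h7, h3]
        ring
      refine ⟨x, fun i h => hm' i ?_⟩
      have h1 : (p : ℤ) ∣ (gq q (m % q) (f i)).eval (x : ℤ) := h
      rw [gq_eval] at h1
      have h4 := hx.trans (sub_dvd_eval_sub _ _ (f i))
      exact (Int.dvd_iff_dvd_of_dvd_sub h4).1 h1
  · intro i j t ht heq
    have h1 : f i = (f j).comp (X + C (q * t)) := by
      apply eq_of_vals hq.pos ((m % q : ℕ) : ℤ)
      intro x
      rw [← gq_eval, heq, eval_comp, gq_eval, eval_comp]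
      simp only [eval_add, eval_X, eval_C]
      congr 1
      ring
    have h2 := hT0 i j _ h1
    rw [Int.natAbs_mul, Int.natAbs_natCast] at h2
    have h3 : 1 ≤ t.natAbs := by omega
    have h4 : q * 1 ≤ q * t.natAbs := Nat.mul_le_mul_left _ h3
    omega

end Run7.h870.LK
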