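import Pool.Agent.Run7.h870.LK.Avg
import Pool.Agent.Run7.h870.LG.Many

/-!
# Data of dimension `k`; sums over the densities
-/

set_option autoImplicit false
set_option linter.all false

namespace Run7.h870.LK

open Finset Filter
open Pool.Agent.Y882
open Pool.Agent.W23.DC
open Pool.Agent.Y882.SI Pool.Agent.Y882.PX Pool.Agent.Y882.KW
open Run7.h870.LG
open Run7.h870.LI (Per rr ind_prod rr_le card_le_of_prod fac_nonneg fac_le_one VV_hcongr few_supp evlog)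
open scoped Classical

/-- the properties of the values of a product of `k` polynomials without common shifts -/
structure DatK (F : ℕ → ℤ) (c k g D : ℕ) (cl : ℝ) (R : ℕ → ℕ) : Prop where
  base : Base (Qf F) c
  hc : 1 ≤ c
  hk : 1 ≤ k
  hcl : 0 < cl
  low : ∀ y : ℕ, 3 ≤ y → cl / Real.log y ^ k ≤ V1 (Qf F) ((Icc 1 y).filter Nat.Prime)
  mer : ∀ ε₁ υ η : ℝ, 0 < ε₁ → υ ≤ 1 → 0 < η → ∃ Y0 : ℕ, ∀ Y : ℕ, Y0 ≤ Y →
    MerK k (pr Y ε₁ υ) (tt Y) (gg (Qf F)) ε₁ υ η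
  hR : ∀ h, 1 ≤ h → R h ≠ 0
  hR2 : ∀ p n h : ℕ, p.Prime → 1 ≤ h → Qf F p n → Qf F p (n + h) → p ∣ R h
  hR3 : ∀ h, 1 ≤ h → R h ≤ D * h ^ D
  size : ∀ n, 1 ≤ n → (F n).natAbs ≤ D * n ^ g

section

variable {F : ℕ → ℤ} {c k g D : ℕ} {cl : ℝ} {R : ℕ → ℕ}

theorem sum_ggK {Q : ℕ → ℕ → Prop} {X : ℕ} {ε₁ υ : ℝ} (hευ : ε₁ ≤ υ)
    (hM : MerK k (pr X ε₁ υ) (tt X) (gg Q) ε₁ υ 1) :
    ∑ p ∈ pr X ε₁ υ, gg Q p ≤ k * Real.log (υ / ε₁) + 1 := by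
  have h1 := hM ε₁ υ le_rfl hευ le_rfl
  have e : (pr X ε₁ υ).filter (fun p => ε₁ ≤ tt X p ∧ tt X p < υ) = pr X ε₁ υ := by
    apply filter_true_of_mem
    intro p hp
    unfold pr at hp
    rw [mem_filter] at hp
    exact hp.2.2
  rw [e] at h1
  have h2 := (abs_le.1 h1).2
  linarith

theorem Sy_leK {Q : ℕ → ℕ → Prop} {X : ℕ} {ε₁ υ B0 : ℝ} (hε : 0 < ε₁) (hευ : ε₁ ≤ υ) (hυ : υ ≤ 1)
    (hB : 0 ≤ B0) (hM : MerK k (pr X ε₁ υ) (tt X) (gg Q) ε₁ υ 1) :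
    Sy Q (pr X ε₁ υ) B0 ≤ 3 * B0 / ε₁ ^ k := by
  have h1 := sum_ggK hευ hM
  have hυ0 : 0 < υ := by linarith
  have h2 : ∏ p ∈ pr X ε₁ υ, (1 + gg Q p) ≤ 3 / ε₁ ^ k := by
    calc ∏ p ∈ pr X ε₁ υ, (1 + gg Q p) ≤ ∏ p ∈ pr X ε₁ υ, Real.exp (gg Q p) :=
          prod_le_prod (fun p _ => by have := gg_nonneg Q p; linarith)
            (fun p _ => by have := Real.add_one_le_exp (gg Q p); linarith)
      _ = Real.exp (∑ p ∈ pr X ε₁ υ, gg Q p) := (Real.exp_sum _ _).symm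
      _ ≤ Real.exp (k * Real.log (υ / ε₁) + 1) := Real.exp_le_exp.2 h1
      _ = (υ / ε₁) ^ k * Real.exp 1 := by
          rw [Real.exp_add, Real.exp_nat_mul, Real.exp_log (by positivity)]
      _ ≤ (1 / ε₁) ^ k * 3 := by
          apply mul_le_mul _ _ (Real.exp_pos _).le (by positivity)
          · exact pow_le_pow_left₀ (by positivity) (div_le_div_of_nonneg_right hυ hε.le) k
          · linarith [Real.exp_one_lt_d9]
      _ = 3 / ε₁ ^ k := by rw [one_div_pow]; ring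
  unfold Sy
  calc B0 * ∏ p ∈ pr X ε₁ υ, (1 + gg Q p) ≤ B0 * (3 / ε₁ ^ k) := mul_le_mul_of_nonneg_left h2 hB
    _ = _ := by ring

theorem gg2_leK {Q : ℕ → ℕ → Prop} (hQ : Base Q c) {X : ℕ} (hX : 2 ≤ X) {ε₁ υ : ℝ} (hε : 0 < ε₁)
    (hευ : ε₁ ≤ υ) (hυ : υ ≤ 1) (hM : MerK k (pr X ε₁ υ) (tt X) (gg Q) ε₁ υ 1) :
    ∑ p ∈ pr X ε₁ υ, gg Q p ^ 2 ≤ c / (X : ℝ) ^ ε₁ * (k / ε₁ + 1) := by
  have hXr : (2 : ℝ) ≤ X := by exact_mod_cast hX
  have h1 := sum_ggK hευ hM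
  have hυ0 : 0 < υ := by linarith
  have h2 : k * Real.log (υ / ε₁) ≤ k / ε₁ := by
    have h3 := Real.log_le_sub_one_of_pos (show 0 < υ / ε₁ by positivity)
    have h4 : υ / ε₁ ≤ 1 / ε₁ := div_le_div_of_nonneg_right hυ hε.le
    calc k * Real.log (υ / ε₁) ≤ k * (1 / ε₁) := by
          apply mul_le_mul_of_nonneg_left _ (Nat.cast_nonneg _)
          linarith
      _ = _ := by ring
  calc ∑ p ∈ pr X ε₁ υ, gg Q p ^ 2 ≤ ∑ p ∈ pr X ε₁ υ, c / (X : ℝ) ^ ε₁ * gg Q p := by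
        apply sum_le_sum
        intro p hp
        obtain ⟨h5, h6, h7⟩ := pr_mem X p ε₁ υ hX hp
        rw [sq]
        apply mul_le_mul_of_nonneg_right _ (gg_nonneg Q p)
        refine (gg_le hQ h5).trans ?_
        exact div_le_div_of_nonneg_left (Nat.cast_nonneg _) (by positivity) h6
    _ = c / (X : ℝ) ^ ε₁ * ∑ p ∈ pr X ε₁ υ, gg Q p := by rw [mul_sum]
    _ ≤ _ := by
        apply mul_le_mul_of_nonneg_left _ (by positivity)
        linarith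

/-- the density of the small primes -/
theorem V1_lowK (hF : DatK F c k g D cl R) : ∀ ε₁ : ℝ, 0 < ε₁ →
    ∃ X0 : ℕ, ∀ X : ℕ, X0 ≤ X → cl / 2 ^ k / (ε₁ * Real.log X) ^ k ≤ V1 (Qf F) (PZ X ε₁) := by
  intro ε₁ hε
  have hc := hF.hcl
  have ev1 : ∀ᶠ X : ℕ in atTop, (3 : ℝ) ≤ (X : ℝ) ^ ε₁ :=
    ((tendsto_rpow_atTop hε).comp tendsto_natCast_atTop_atTop).eventually_ge_atTop _
  obtain ⟨X0, hX0⟩ := eventually_atTop.1 (ev1.and (eventually_ge_atTop 3))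
  refine ⟨X0, fun X hX => ?_⟩
  obtain ⟨e1, e2⟩ := hX0 X hX
  have hXr : (3 : ℝ) ≤ X := by exact_mod_cast e2
  have hX0 : (0 : ℝ) < X := by linarith
  have hlX : 0 < Real.log X := Real.log_pos (by linarith)
  obtain ⟨Z, hZ⟩ : ∃ Z, Z = ⌈(X : ℝ) ^ ε₁⌉₊ := ⟨_, rfl⟩
  have hZ1 : (X : ℝ) ^ ε₁ ≤ Z := hZ ▸ Nat.le_ceil _
  have hZ2 : (Z : ℝ) ≤ (X : ℝ) ^ (2 * ε₁) := by
    have h1 := Nat.ceil_lt_add_one (show 0 ≤ (X : ℝ) ^ ε₁ by positivity)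
    rw [← hZ] at h1
    have h2 : (X : ℝ) ^ (2 * ε₁) = (X : ℝ) ^ ε₁ * (X : ℝ) ^ ε₁ := by
      rw [← Real.rpow_add hX0]
      congr 1
      ring
    rw [h2]
    nlinarith
  have hZ3 : 3 ≤ Z := by
    have : (3 : ℝ) ≤ Z := e1.trans hZ1
    exact_mod_cast this
  have hZr : (3 : ℝ) ≤ Z := by exact_mod_cast hZ3
  have h1 := hF.low Z hZ3
  have h2 : V1 (Qf F) ((Icc 1 Z).filter Nat.Prime) ≤ V1 (Qf F) (PZ X ε₁) := by
    have hsub : PZ X ε₁ ⊆ (Icc 1 Z).filter Nat.Prime := by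
      intro p hp
      unfold PZ at hp
      rw [mem_filter, mem_Icc] at hp
      rw [mem_filter, mem_Icc]
      refine ⟨⟨hp.1.1, ?_⟩, hp.2.1⟩
      have h3 := (tt_lt X p ε₁ (by omega) hp.2.1.pos).1 hp.2.2
      exact_mod_cast (h3.le.trans hZ1)
    have e : V1 (Qf F) ((Icc 1 Z).filter Nat.Prime) =
        V1 (Qf F) ((Icc 1 Z).filter Nat.Prime \ PZ X ε₁) * V1 (Qf F) (PZ X ε₁) :=
      (prod_sdiff hsub).symm
    rw [e]
    apply mul_le_of_le_one_left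
    · exact (V1_pos hF.base fun p hp => (mem_filter.1 (hsub hp)).2).le
    · exact V1_le_one _ fun p hp => (mem_filter.1 (Finset.mem_sdiff.1 hp).1).2
  refine le_trans ?_ (h1.trans h2)
  have h3 : Real.log Z ≤ 2 * ε₁ * Real.log X := by
    rw [← Real.log_rpow hX0]
    exact Real.log_le_log (by linarith) hZ2
  have h4 : 0 < Real.log Z := Real.log_pos (by linarith)
  calc cl / 2 ^ k / (ε₁ * Real.log X) ^ k = cl / (2 * ε₁ * Real.log X) ^ k := by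
        rw [div_div, ← mul_pow]
        congr 2
        ring
    _ ≤ cl / Real.log Z ^ k := by
        apply div_le_div_of_nonneg_left hc.le (pow_pos h4 k)
        exact pow_le_pow_left₀ h4.le h3 k

/-- the indices `j` for which `F (n + j s)` has no prime factor below `X ^ ζ` -/
noncomputable def zset (F : ℕ → ℤ) (X : ℕ) (ζ : ℝ) (s H n : ℕ) : Finset ℕ :=
  (range H).filter fun j => ∀ p ∈ PZ X ζ, ¬ (p : ℤ) ∣ F (n + j * s)

theorem ww_leK {X : ℕ} {ε₁ ζ : ℝ} {y : Finset ℕ → ℝ}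
    (hy : ∀ Z : ℕ → Prop, VV (pr X ε₁ ζ) y (fun p => if Z p then 1 else 0) ≤
      if ∀ p ∈ pr X ε₁ ζ, ¬ Z p then 1 else 0) (F : ℕ → ℤ) (n : ℕ) :
    ww (Qf F) (PZ X ε₁) (pr X ε₁ ζ) y n ≤
      if ∀ p ∈ PZ X ζ, ¬ (p : ℤ) ∣ F n then 1 else 0 := by
  by_cases h : ∀ p ∈ PZ X ε₁, ¬ Qf F p n
  · unfold ww
    rw [if_pos h]
    have h1 := hy (fun p => Qf F p n)
    unfold vv
    refine h1.trans ?_
    by_cases h4 : ∀ p ∈ pr X ε₁ ζ, ¬ Qf F p n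
    · rw [if_pos h4, if_pos]
      intro p hp
      unfold PZ at hp
      rw [mem_filter] at hp
      rcases lt_or_ge (tt X p) ε₁ with h5 | h5
      · exact h p (by unfold PZ; rw [mem_filter]; exact ⟨hp.1, hp.2.1, h5⟩)
      · exact h4 p (by unfold pr; rw [mem_filter]; exact ⟨hp.1, hp.2.1, h5, hp.2.2⟩)
    · rw [if_neg h4]
      split_ifs <;> norm_num
  · unfold ww
    rw [if_neg h]
    split_ifs <;> norm_num

theorem AA_leK {X : ℕ} {ε₁ ζ : ℝ} {y : Finset ℕ → ℝ}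
    (hy : ∀ Z : ℕ → Prop, VV (pr X ε₁ ζ) y (fun p => if Z p then 1 else 0) ≤
      if ∀ p ∈ pr X ε₁ ζ, ¬ Z p then 1 else 0) (F : ℕ → ℤ) (s H n : ℕ) :
    AA (Qf F) (PZ X ε₁) (pr X ε₁ ζ) y s H n ≤ ((zset F X ζ s H n).card : ℝ) := by
  have h1 : ((zset F X ζ s H n).card : ℝ) = ∑ j ∈ range H,
      if ∀ p ∈ PZ X ζ, ¬ (p : ℤ) ∣ F (n + j * s) then (1 : ℝ) else 0 := by
    unfold zset
    rw [card_filter]
    push_cast
    rfl
  rw [h1]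
  unfold AA
  exact sum_le_sum fun j _ => ww_leK hy F _

/-- the sizes of the resultants -/
theorem R_sizeK (hF : DatK F c k g D cl R) {X h s : ℕ} (hX : 3 ≤ X) (hD : D ≤ X) (h1 : 1 ≤ h)
    (hs : 1 ≤ s) (hhX : h ≤ X) (hsX : s ≤ X) :
    ((R (h * s) : ℕ) : ℝ) ≤ (X : ℝ) ^ ((2 * D + 1 : ℕ) : ℝ) := by
  rw [Real.rpow_natCast]
  have h2 := hF.hR3 (h * s) (Nat.mul_pos h1 hs)
  have h3 : D * (h * s) ^ D ≤ X ^ (2 * D + 1) := by
    calc D * (h * s) ^ D ≤ X * (X * X) ^ D :=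
          Nat.mul_le_mul hD (Nat.pow_le_pow_left (Nat.mul_le_mul hhX hsX) D)
      _ = X ^ (2 * D + 1) := by
          rw [← sq, ← pow_mul]
          ring
  exact_mod_cast h2.trans h3

/-- the sizes of the values -/
theorem F_sizeK (hF : DatK F c k g D cl R) {X n : ℕ} (hX : 3 ≤ X) (hD : D ≤ X) (h1 : 1 ≤ n)
    (hn : n ≤ X ^ 3) : ((F n).natAbs : ℝ) ≤ (X : ℝ) ^ ((3 * g + 1 : ℕ) : ℝ) := by
  rw [Real.rpow_natCast]
  have h2 := hF.size n h1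
  have h3 : D * n ^ g ≤ X ^ (3 * g + 1) := by
    calc D * n ^ g ≤ X * (X ^ 3) ^ g := Nat.mul_le_mul hD (Nat.pow_le_pow_left hn g)
      _ = X ^ (3 * g + 1) := by
          rw [← pow_mul]
          ring
  exact_mod_cast h2.trans h3

/-- the primes with collisions -/
theorem co_leK (hF : DatK F c k g D cl R) {X h s : ℕ} (hX : 3 ≤ X) (hD : D ≤ X) (h1 : 1 ≤ h)
    (hs : 1 ≤ s) (hhX : h ≤ X) (hsX : s ≤ X) {ε₁ υ : ℝ} (hε : 0 < ε₁) {m : ℕ}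
    (hm : ((2 * D + 1 : ℕ) : ℝ) / ε₁ ≤ m) :
    2 * (2 ^ ((pr X ε₁ υ).filter fun p => Cd (Qf F) p (h * s)).card *
      ∑ p ∈ (pr X ε₁ υ).filter (fun p => Cd (Qf F) p (h * s)), gg (Qf F) p) ≤
      2 * (2 ^ m * (m * (c / (X : ℝ) ^ ε₁))) := by
  have hXr : (3 : ℝ) ≤ X := by exact_mod_cast hX
  have hc1 : ((pr X ε₁ υ).filter fun p => Cd (Qf F) p (h * s)).card ≤ m := by
    apply few_div (by omega) hε hm (hF.hR (h * s) (Nat.mul_pos h1 hs))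
      (R_sizeK hF hX hD h1 hs hhX hsX) (filter_subset _ _)
    intro p hp
    obtain ⟨n, hn1, hn2⟩ := (mem_filter.1 hp).2
    exact hF.hR2 p n (h * s) (pr_mem X p ε₁ υ (by omega) (mem_filter.1 hp).1).1 (Nat.mul_pos h1 hs) hn1 hn2
  have hsum : ∑ p ∈ (pr X ε₁ υ).filter (fun p => Cd (Qf F) p (h * s)), gg (Qf F) p ≤
      m * (c / (X : ℝ) ^ ε₁) := by
    calc ∑ p ∈ (pr X ε₁ υ).filter (fun p => Cd (Qf F) p (h * s)), gg (Qf F) p ≤
        ∑ p ∈ (pr X ε₁ υ).filter (fun p => Cd (Qf F) p (h * s)), (c / (X : ℝ) ^ ε₁ : ℝ) := by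
          apply sum_le_sum
          intro p hp
          obtain ⟨h5, h6, h7⟩ := pr_mem X p ε₁ υ (by omega) (mem_filter.1 hp).1
          refine (gg_le hF.base h5).trans ?_
          exact div_le_div_of_nonneg_left (Nat.cast_nonneg _) (by positivity) h6
      _ = ((pr X ε₁ υ).filter fun p => Cd (Qf F) p (h * s)).card * (c / (X : ℝ) ^ ε₁) := by
          rw [sum_const, nsmul_eq_mul]
      _ ≤ _ := by
          apply mul_le_mul_of_nonneg_right _ (by positivity)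
          exact_mod_cast hc1
  apply mul_le_mul_of_nonneg_left _ (by norm_num)
  apply mul_le_mul _ hsum (sum_nonneg fun p _ => gg_nonneg _ p) (by positivity)
  exact pow_le_pow_right₀ (by norm_num) hc1

theorem choose_bK (C N k : ℕ) (hC : 1 ≤ C) {κ ζ A ε f0 : ℝ} (hκ : 0 < κ) (hζ : 0 < ζ)
    (hA : 0 < A) (hε : 0 < ε) (hf : 0 < f0) : ∃ b : ℕ, N ≤ b ∧ 0 < b ∧
      κ / (8 * C * b) ≤ ζ ∧
      (A / (κ / (8 * C * b)) ^ k) ^ 2 * (1 / 2) ^ b ≤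
        ε / 480 * ((κ / (8 * C * b)) ^ k * f0) ^ 2 := by
  have hCr : (1 : ℝ) ≤ C := by exact_mod_cast hC
  have t1 : Tendsto (fun b : ℕ => (b : ℝ) ^ (4 * k) * (1 / 2 : ℝ) ^ b) atTop (nhds 0) :=
    tendsto_pow_const_mul_const_pow_of_abs_lt_one (4 * k) (by rw [abs_of_pos] <;> norm_num)
  have ev1 := t1.eventually_le_const
    (show (0 : ℝ) < ε / 480 * f0 ^ 2 * (κ / (8 * C)) ^ (4 * k) / A ^ 2 by positivity)
  have ev2 : ∀ᶠ b : ℕ in atTop, κ / (8 * C) / ζ ≤ (b : ℝ) :=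
    tendsto_natCast_atTop_atTop.eventually_ge_atTop _
  obtain ⟨b, h1, h2, h4⟩ :=
    (ev1.and (ev2.and (eventually_ge_atTop (N + 1)))).exists
  have hb : 0 < b := by omega
  have hbr : (0 : ℝ) < b := by exact_mod_cast hb
  have e : κ / (8 * C * b) = κ / (8 * C) / b := by rw [div_div]
  refine ⟨b, by omega, hb, ?_, ?_⟩
  · rw [e, div_le_iff₀ hbr]
    rw [div_le_iff₀ hζ] at h2
    linarith
  · rw [e]
    obtain ⟨q, hq⟩ : ∃ q, q = κ / (8 * C) := ⟨_, rfl⟩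
    have hq0 : 0 < q := by rw [hq]; positivity
    rw [← hq] at h1 ⊢
    rw [le_div_iff₀ (by positivity)] at h1
    have h5 : (A / (q / b) ^ k) ^ 2 * (1 / 2) ^ b = A ^ 2 * (b : ℝ) ^ (2 * k) / q ^ (2 * k) * (1 / 2) ^ b := by
      rw [div_pow q, mul_comm 2 k, pow_mul, pow_mul]
      field_simp
    rw [h5, div_mul_eq_mul_div, div_le_iff₀ (by positivity)]
    have h6 : ε / 480 * ((q / b) ^ k * f0) ^ 2 * q ^ (2 * k) =
        (ε / 480 * f0 ^ 2 * q ^ (4 * k)) / (b : ℝ) ^ (2 * k) := by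
      rw [div_pow q, show 4 * k = k * 2 + k * 2 by ring, pow_add, mul_comm 2 k, pow_mul, pow_mul]
      field_simp
    rw [h6, le_div_iff₀ (by positivity)]
    calc A ^ 2 * (b : ℝ) ^ (2 * k) * (1 / 2) ^ b * (b : ℝ) ^ (2 * k) =
        (b : ℝ) ^ (4 * k) * (1 / 2) ^ b * A ^ 2 := by
          rw [show 4 * k = 2 * k + 2 * k by ring, pow_add]; ring
      _ ≤ _ := h1

end

end Run7.h870.LK
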