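import Pool.Agent.Run7.h870.LK.Bh
import Pool.Agent.Y882.Core
import Pool.Agent.Y882.PX.MerX

/-!
# Lower-bound sieve weights of dimension `k` on the primes between `Y ^ ε₁` and `Y ^ ζ`
-/

set_option autoImplicit false
set_option linter.all false

namespace Run7.h870.LK

open Finset
open Pool.Agent.Y882
open Pool.Agent.W23.DC
open Pool.Agent.Y882.PX
open scoped Classical

/-- regular densities of dimension `k` -/
def MerK (k : ℕ) (P : Finset ℕ) (t g : ℕ → ℝ) (ε₁ w η : ℝ) : Prop :=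
  ∀ a b : ℝ, ε₁ ≤ a → a ≤ b → b ≤ w →
    |∑ p ∈ P.filter (fun p => a ≤ t p ∧ t p < b), g p - k * Real.log (b / a)| ≤ η

theorem sum_geo {u : ℝ} (hu0 : 0 < u) (hu1 : u < 1) (r : ℕ) :
    ∑ j ∈ range r, ((j : ℝ) + 1) * u ^ j ≤ 1 / (1 - u) ^ 2 := by
  have h1 : ∀ n : ℕ, (∑ j ∈ range n, ((j : ℝ) + 1) * u ^ j) * (1 - u) ^ 2 =
      1 - u ^ n * (n * (1 - u) + 1) := by
    intro n
    induction n with
    | zero => simp
    | succ n ih =>
      rw [sum_range_succ, add_mul, ih]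
      push_cast
      ring
  have h2 : 0 < (1 - u) ^ 2 := by
    have : 0 < 1 - u := by linarith
    positivity
  rw [le_div_iff₀ h2, h1]
  have h3 : 0 ≤ u ^ r * (r * (1 - u) + 1) := by
    have : 0 < 1 - u := by linarith
    positivity
  linarith

theorem one_sub_exp {g γ : ℝ} (hg0 : 0 ≤ g) (hgγ : g ≤ γ) (hγ : γ ≤ 1 / 2) :
    Real.exp (-(g * (1 + 2 * γ))) ≤ 1 - g := by
  have h1 : 0 < 1 - g := by linarith
  rw [← Real.le_log_iff_exp_le h1]
  have h2 := Real.one_sub_inv_le_log_of_pos h1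
  refine le_trans ?_ h2
  have h3 : 1 - (1 - g)⁻¹ = -(g / (1 - g)) := by field_simp; ring
  rw [h3, neg_le_neg_iff, div_le_iff₀ h1]
  have h4 : 0 ≤ g * (2 * γ - g - 2 * γ * g) := by
    apply mul_nonneg hg0
    have : 2 * γ * g ≤ g := by nlinarith
    linarith
  nlinarith

/-- the blocks -/
noncomputable def Bk (Y : ℕ) (ε₁ ζ x : ℝ) (j : ℕ) : Finset ℕ :=
  (pr Y ε₁ ζ).filter fun p => ζ * Real.exp (-(x * (j + 1))) ≤ tt Y p ∧ tt Y p < ζ * Real.exp (-(x * j))

theorem Bk_disj (Y : ℕ) {ε₁ ζ x : ℝ} (hζ : 0 < ζ) (hx : 0 < x) (i j : ℕ) (hij : i ≠ j) :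
    Disjoint (Bk Y ε₁ ζ x i) (Bk Y ε₁ ζ x j) := by
  have key : ∀ i j : ℕ, i < j → Disjoint (Bk Y ε₁ ζ x i) (Bk Y ε₁ ζ x j) := by
    intro i j hij
    rw [disjoint_left]
    intro p hp hp'
    unfold Bk at hp hp'
    rw [mem_filter] at hp hp'
    have h1 : ((i : ℝ) + 1) ≤ j := by exact_mod_cast hij
    have h2 : Real.exp (-(x * j)) ≤ Real.exp (-(x * (i + 1))) := by
      apply Real.exp_le_exp.2
      nlinarith
    have h3 := mul_le_mul_of_nonneg_left h2 hζ.le
    linarith [hp.2.1, hp'.2.2]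
  rcases lt_or_gt_of_ne hij with h | h
  · exact key i j h
  · exact (key j i h).symm

theorem UB_Bk (Y : ℕ) {ε₁ ζ x : ℝ} (hζ : 0 < ζ) (hx : 0 < x) (r : ℕ) :
    UB (Bk Y ε₁ ζ x) r = (pr Y ε₁ ζ).filter fun p => ζ * Real.exp (-(x * r)) ≤ tt Y p := by
  induction r with
  | zero =>
    unfold UB
    rw [range_zero, biUnion_empty]
    symm
    rw [filter_eq_empty_iff]
    intro p hp
    unfold pr at hp
    rw [mem_filter] at hp
    simp
    exact hp.2.2.2
  | succ r ih =>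
    rw [UB_succ, ih]
    ext p
    unfold Bk
    rw [mem_union, mem_filter, mem_filter, mem_filter]
    push_cast
    have h2 : Real.exp (-(x * (r + 1))) ≤ Real.exp (-(x * r)) := by
      apply Real.exp_le_exp.2
      nlinarith
    have h3 := mul_le_mul_of_nonneg_left h2 hζ.le
    constructor
    · rintro (⟨h4, h5⟩ | ⟨h4, h5, h6⟩)
      · exact ⟨h4, h3.trans h5⟩
      · exact ⟨h4, h5⟩
    · rintro ⟨h4, h5⟩
      by_cases h6 : ζ * Real.exp (-(x * r)) ≤ tt Y p
      · exact Or.inl ⟨h4, h6⟩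
      · exact Or.inr ⟨h4, h5, not_le.1 h6⟩

set_option maxHeartbeats 4000000 in
/-- **lower-bound weights of dimension `k`** -/
theorem bh (k : ℕ) (hk : 1 ≤ k) (τ ζ x : ℝ) (hζ : 0 < ζ) (hx : 0 < x) (hxk : k * x < 1)
    (hlev : ζ * (1 + 2 / (1 - Real.exp (-x)) ^ 2) ≤ τ) :
    ∃ f0 : ℝ, 0 < f0 ∧ ∀ ε₁ : ℝ, 0 < ε₁ → ε₁ ≤ ζ → ∃ η γ : ℝ, 0 < η ∧ 0 < γ ∧
      ∀ Y : ℕ, 2 ≤ Y → ∃ cL : Finset ℕ → ℝ, (∀ T, |cL T| ≤ 1) ∧
        (∀ T ⊆ pr Y ε₁ ζ, cL T ≠ 0 → ((∏ p ∈ T, p : ℕ) : ℝ) ≤ (Y : ℝ) ^ τ) ∧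
        (∀ Z : ℕ → Prop, VV (pr Y ε₁ ζ) cL (fun p => if Z p then 1 else 0) ≤
          if ∀ p ∈ pr Y ε₁ ζ, ¬ Z p then 1 else 0) ∧
        ∀ g : ℕ → ℝ, (∀ p ∈ pr Y ε₁ ζ, 0 ≤ g p ∧ g p ≤ γ) → MerK k (pr Y ε₁ ζ) (tt Y) g ε₁ ζ η →
          ε₁ ^ k * f0 ≤ VV (pr Y ε₁ ζ) cL g := by
  have hkr : (1 : ℝ) ≤ k := by exact_mod_cast hk
  obtain ⟨θ, hθ⟩ : ∃ θ : ℝ, θ = 1 - k * x := ⟨_, rfl⟩
  have hθ0 : 0 < θ := by rw [hθ]; linarith
  have hθ1 : θ ≤ 1 := by rw [hθ]; nlinarith
  refine ⟨Real.exp (-2) / (2 * ζ ^ k), by positivity, fun ε₁ hε hεζ => ?_⟩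
  obtain ⟨η, hη⟩ : ∃ η : ℝ, η = θ / 2 := ⟨_, rfl⟩
  have hη0 : 0 < η := by rw [hη]; positivity
  have hζε : 1 ≤ ζ / ε₁ := by rw [le_div_iff₀ hε]; linarith
  have hlz : 0 ≤ Real.log (ζ / ε₁) := Real.log_nonneg hζε
  obtain ⟨Sm, hSm⟩ : ∃ Sm : ℝ, Sm = k * Real.log (ζ / ε₁) + η := ⟨_, rfl⟩
  have hSm0 : 0 ≤ Sm := by rw [hSm]; positivity
  obtain ⟨γ, hγ⟩ : ∃ γ : ℝ, γ = min (θ / 8) (1 / (4 * (Sm + 1))) := ⟨_, rfl⟩
  have hγ0 : 0 < γ := by rw [hγ]; positivity
  have hγ1 : γ ≤ θ / 8 := by rw [hγ]; exact min_le_left _ _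
  have hγ2 : γ ≤ 1 / (4 * (Sm + 1)) := by rw [hγ]; exact min_le_right _ _
  refine ⟨η, γ, hη0, hγ0, fun Y hY => ?_⟩
  -- the number of blocks
  obtain ⟨r, hr⟩ : ∃ r : ℕ, ζ * Real.exp (-(x * r)) ≤ ε₁ := by
    obtain ⟨r, hr⟩ := exists_nat_ge (Real.log (ζ / ε₁) / x)
    refine ⟨r, ?_⟩
    rw [div_le_iff₀ hx] at hr
    have h1 : Real.exp (-(x * r)) ≤ ε₁ / ζ := by
      rw [← Real.exp_log (show 0 < ε₁ / ζ by positivity)]
      apply Real.exp_le_exp.2
      have : Real.log (ε₁ / ζ) = - Real.log (ζ / ε₁) := by rw [← Real.log_inv, inv_div]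
      rw [this]
      linarith
    calc ζ * Real.exp (-(x * r)) ≤ ζ * (ε₁ / ζ) := mul_le_mul_of_nonneg_left h1 hζ.le
      _ = ε₁ := by field_simp
  have hU : UB (Bk Y ε₁ ζ x) r = pr Y ε₁ ζ := by
    rw [UB_Bk Y hζ hx]
    apply filter_true_of_mem
    intro p hp
    unfold pr at hp
    rw [mem_filter] at hp
    exact hr.trans hp.2.2.1
  have hdis := Bk_disj Y (ε₁ := ε₁) hζ hx
  have hYr : (2 : ℝ) ≤ Y := by exact_mod_cast hY
  have hY1 : (1 : ℝ) ≤ Y := by linarith
  have hY0 : (0 : ℝ) < Y := by linarith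
  refine ⟨LW (Bk Y ε₁ ζ x) r, LW_abs _ r, ?_, ?_, ?_⟩
  · intro T hT hne
    rw [← hU] at hT
    have h1 := LW_zero (B := Bk Y ε₁ ζ x) (z := fun j => (Y : ℝ) ^ (ζ * Real.exp (-(x * j))))
      (fun j => Real.one_le_rpow hY1 (by positivity))
      (fun j => Real.rpow_le_rpow_of_exponent_le hY1 (by
        apply mul_le_mul_of_nonneg_left _ hζ.le
        apply Real.exp_le_exp.2
        have : 0 ≤ x * j := by positivity
        push_cast
        linarith))
      (fun j p hp => by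
        unfold Bk at hp
        rw [mem_filter] at hp
        have h2 := (pr_mem Y p ε₁ ζ hY hp.1).1.pos
        exact ((tt_lt Y p _ hY h2).1 hp.2.2).le) r T hT hne
    refine h1.trans ?_
    have h2 : (Y : ℝ) ^ (ζ * Real.exp (-(x * ((0 : ℕ) : ℝ)))) *
        ∏ j ∈ range r, ((Y : ℝ) ^ (ζ * Real.exp (-(x * j)))) ^ (2 * (j + 1)) =
        (Y : ℝ) ^ (ζ + ∑ j ∈ range r, ζ * Real.exp (-(x * j)) * (2 * (j + 1))) := by
      rw [Real.rpow_add hY0, Real.rpow_sum_of_pos hY0]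
      congr 1
      · norm_num
      · refine prod_congr rfl fun j _ => ?_
        rw [← Real.rpow_natCast, ← Real.rpow_mul hY0.le]
        push_cast
        rfl
    show (Y : ℝ) ^ (ζ * Real.exp (-(x * ((0 : ℕ) : ℝ)))) *
        ∏ j ∈ range r, ((Y : ℝ) ^ (ζ * Real.exp (-(x * j)))) ^ (2 * (j + 1)) ≤ _
    rw [h2]
    apply Real.rpow_le_rpow_of_exponent_le hY1
    have hu1 : Real.exp (-x) < 1 := by rw [Real.exp_lt_one_iff]; linarith
    have h3 := sum_geo (Real.exp_pos (-x)) hu1 r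
    have h4 : ∑ j ∈ range r, ζ * Real.exp (-(x * j)) * (2 * (j + 1)) =
        2 * ζ * ∑ j ∈ range r, ((j : ℝ) + 1) * Real.exp (-x) ^ j := by
      rw [mul_sum]
      refine sum_congr rfl fun j _ => ?_
      rw [← Real.exp_nat_mul]
      have : (j : ℝ) * -x = -(x * j) := by ring
      rw [this]
      ring
    rw [h4]
    have h5 := mul_le_mul_of_nonneg_left h3 (show 0 ≤ 2 * ζ by positivity)
    refine le_trans ?_ hlev
    have h6 : ζ * (1 + 2 / (1 - Real.exp (-x)) ^ 2) = ζ + 2 * ζ * (1 / (1 - Real.exp (-x)) ^ 2) := by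
      ring
    rw [h6]
    linarith
  · intro Z
    have h1 := (sandwich hdis (g := fun p => if Z p then (1 : ℝ) else 0) r (fun p _ => by
      split_ifs <;> norm_num)).2
    rw [hU] at h1
    refine h1.trans ?_
    by_cases h : ∀ p ∈ pr Y ε₁ ζ, ¬ Z p
    · rw [if_pos h]
      apply le_of_eq
      apply prod_eq_one
      intro p hp
      rw [if_neg (h p hp)]
      norm_num
    · rw [if_neg h]
      push Not at h
      obtain ⟨p, hp, hp2⟩ := h
      apply le_of_eq
      apply prod_eq_zero hp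
      rw [if_pos hp2]
      norm_num
  · intro g hg hM
    have hγh : γ ≤ 1 / 2 := by linarith
    have hprod : ∀ P ⊆ pr Y ε₁ ζ, Real.exp (-((∑ p ∈ P, g p) * (1 + 2 * γ))) ≤ ∏ p ∈ P, (1 - g p) := by
      intro P hP
      rw [sum_mul, ← sum_neg_distrib, Real.exp_sum]
      apply prod_le_prod (fun p _ => (Real.exp_pos _).le)
      intro p hp
      exact one_sub_exp (hg p (hP hp)).1 (hg p (hP hp)).2 hγh
    have hblk : ∀ j, ∑ p ∈ Bk Y ε₁ ζ x j, g p ≤ k * x + η := by
      intro j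
      by_cases hb : ε₁ ≤ ζ * Real.exp (-(x * j))
      · obtain ⟨a, ha⟩ : ∃ a : ℝ, a = max ε₁ (ζ * Real.exp (-(x * (j + 1)))) := ⟨_, rfl⟩
        have hle : ζ * Real.exp (-(x * (j + 1))) ≤ ζ * Real.exp (-(x * j)) := by
          apply mul_le_mul_of_nonneg_left _ hζ.le
          apply Real.exp_le_exp.2
          linarith
        have ha1 : ε₁ ≤ a := ha ▸ le_max_left _ _
        have ha2 : a ≤ ζ * Real.exp (-(x * j)) := by rw [ha]; exact max_le hb hle
        have ha0 : 0 < a := lt_of_lt_of_le hε ha1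
        have h1 := hM a (ζ * Real.exp (-(x * j))) ha1 ha2 (by
          have : Real.exp (-(x * j)) ≤ 1 := by
            rw [Real.exp_le_one_iff]
            have : 0 ≤ x * j := by positivity
            linarith
          nlinarith)
        have h2 : (pr Y ε₁ ζ).filter (fun p => a ≤ tt Y p ∧ tt Y p < ζ * Real.exp (-(x * j))) =
            Bk Y ε₁ ζ x j := by
          ext p
          unfold Bk
          rw [mem_filter, mem_filter]
          constructor
          · rintro ⟨h3, h4, h5⟩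
            exact ⟨h3, le_trans (ha ▸ le_max_right _ _) h4, h5⟩
          · rintro ⟨h3, h4, h5⟩
            refine ⟨h3, ?_, h5⟩
            rw [ha]
            refine max_le ?_ h4
            unfold pr at h3
            rw [mem_filter] at h3
            exact h3.2.2.1
        rw [h2] at h1
        have h3 := (abs_le.1 h1).2
        have h4 : Real.log (ζ * Real.exp (-(x * j)) / a) ≤ x := by
          have h5 : ζ * Real.exp (-(x * j)) / a ≤ Real.exp x := by
            rw [div_le_iff₀ ha0]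
            have h6 : ζ * Real.exp (-(x * j)) = Real.exp x * (ζ * Real.exp (-(x * (j + 1)))) := by
              have : Real.exp (-(x * j)) = Real.exp x * Real.exp (-(x * (j + 1))) := by
                rw [← Real.exp_add]; congr 1; ring
              rw [this]; ring
            rw [h6]
            apply mul_le_mul_of_nonneg_left _ (Real.exp_pos _).le
            rw [ha]
            exact le_max_right _ _
          have h7 := Real.log_le_log (by positivity) h5
          rwa [Real.log_exp] at h7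
        have h5 := mul_le_mul_of_nonneg_left h4 (show (0 : ℝ) ≤ k by linarith)
        linarith
      · have : Bk Y ε₁ ζ x j = ∅ := by
          unfold Bk
          rw [filter_eq_empty_iff]
          intro p hp
          unfold pr at hp
          rw [mem_filter] at hp
          push Not
          intro _
          push Not at hb
          linarith [hp.2.2.1]
        rw [this, sum_empty]
        positivity
    have hBsub : ∀ j, Bk Y ε₁ ζ x j ⊆ pr Y ε₁ ζ := fun j => filter_subset _ _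
    have hs1 : k * x + η ≤ 1 - θ / 2 := by rw [hη, hθ]; linarith
    have hmain := main_term hdis (g := g) r (fun p hp => by
      rw [hU] at hp
      have := hg p hp
      exact ⟨this.1, by linarith⟩) (fun j _ => (hblk j).trans (by linarith)) (fun j _ => by
      refine le_trans ?_ (hprod _ (hBsub j))
      apply Real.exp_le_exp.2
      have h1 : (∑ p ∈ Bk Y ε₁ ζ x j, g p) * (1 + 2 * γ) ≤ (1 - θ / 2) * (1 + θ / 4) := by
        apply mul_le_mul ((hblk j).trans hs1) (by linarith) (by linarith) (by linarith)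
      nlinarith)
    rw [hU] at hmain
    refine le_trans ?_ hmain
    have htot : ∑ p ∈ pr Y ε₁ ζ, g p ≤ Sm := by
      have h1 := hM ε₁ ζ le_rfl hεζ le_rfl
      have e : (pr Y ε₁ ζ).filter (fun p => ε₁ ≤ tt Y p ∧ tt Y p < ζ) = pr Y ε₁ ζ := by
        apply filter_true_of_mem
        intro p hp
        unfold pr at hp
        rw [mem_filter] at hp
        exact hp.2.2
      rw [e] at h1
      rw [hSm]
      linarith [(abs_le.1 h1).2]
    have h1 := hprod _ (Subset.refl (pr Y ε₁ ζ))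
    have h2 : ε₁ ^ k / ζ ^ k * Real.exp (-2) ≤ ∏ p ∈ pr Y ε₁ ζ, (1 - g p) := by
      refine le_trans ?_ h1
      have h3 : ε₁ ^ k / ζ ^ k = Real.exp (-(k * Real.log (ζ / ε₁))) := by
        rw [← div_pow, Real.exp_neg, Real.exp_nat_mul, Real.exp_log (by positivity), ← inv_pow, inv_div]
      rw [h3, ← Real.exp_add]
      apply Real.exp_le_exp.2
      have h4 : (∑ p ∈ pr Y ε₁ ζ, g p) * (1 + 2 * γ) ≤ Sm * (1 + 2 * γ) :=
        mul_le_mul_of_nonneg_right htot (by linarith)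
      have h5 : Sm * (2 * γ) ≤ 1 := by
        have h6 : Sm * (2 * γ) ≤ (Sm + 1) * (2 * (1 / (4 * (Sm + 1)))) := by
          apply mul_le_mul (by linarith) (by linarith) (by linarith) (by linarith)
        have h7 : (Sm + 1) * (2 * (1 / (4 * (Sm + 1)))) = 1 / 2 := by
          field_simp
          norm_num
        linarith
      have h6 : Sm = k * Real.log (ζ / ε₁) + η := hSm
      have h7 : η ≤ 1 := by rw [hη]; linarith
      linarith
    have h3 : ε₁ ^ k * (Real.exp (-2) / (2 * ζ ^ k)) = (ε₁ ^ k / ζ ^ k * Real.exp (-2)) / 2 := by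
      field_simp
    rw [h3]
    linarith

end Run7.h870.LK
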